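import Mathlib
import Pool.Agent.Helper462.Cb.L1
import Pool.Agent.Helper462.Cb.L2
import Pool.Agent.Helper462.Cb.L4

/-!
# Complete reducibility of representations of a reductive Lie algebra
-/

set_option linter.unusedSectionVars false

open Module LieAlgebra

namespace Pool.Agent.L5helper27.MM

/-- The splitting lemma. -/
theorem splitC (C : Type) [Field C] [CharZero C] [IsAlgClosed C] : Cb.a19237_split C := by
  intro L _ _ _ _ V _ _ _ _ _ V₁ h1 h2
  exact Cb.splitting (fun V _ _ _ _ _ hnt => Cb.casimir hnt) V V₁ h1 h2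

/-- An endomorphism for which the eigenspaces span is semisimple. -/
theorem semis {K V : Type} [Field K] [AddCommGroup V] [Module K V] [FiniteDimensional K V]
    (f : End K V) (h : ⨆ μ, End.eigenspace f μ = ⊤) : f.IsSemisimple := by
  classical
  have hfin : {μ | f.HasEigenvalue μ}.Finite := End.finite_hasEigenvalue f
  set p : Polynomial K := ∏ μ ∈ hfin.toFinset, (Polynomial.X - Polynomial.C μ) with hp
  have hsq : Squarefree p := by
    have h1 : p.Separable := by
      rw [hp]
      exact Polynomial.separable_prod_X_sub_C_iff' (s := hfin.toFinset) (f := fun μ => μ) |>.2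
        (fun x _ y _ hxy => hxy)
    exact h1.squarefree
  refine End.isSemisimple_of_squarefree_aeval_eq_zero hsq ?_
  have hle : (⨆ μ, End.eigenspace f μ) ≤ LinearMap.ker (Polynomial.aeval f p) := by
    refine iSup_le fun μ => ?_
    intro v hv
    rw [LinearMap.mem_ker]
    by_cases hv0 : v = 0
    · rw [hv0, map_zero]
    have hμ : μ ∈ hfin.toFinset := by
      rw [Set.Finite.mem_toFinset]
      exact End.hasEigenvalue_of_hasEigenvector ⟨hv, hv0⟩
    rw [hp, ← Finset.prod_erase_mul _ _ hμ, map_mul, Module.End.mul_apply, map_sub,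
      Polynomial.aeval_X, Polynomial.aeval_C]
    have h1 : (f - algebraMap K (End K V) μ) v = 0 := by
      rw [LinearMap.sub_apply, End.mem_eigenspace_iff.1 hv, Module.algebraMap_end_apply, sub_self]
    rw [h1, map_zero]
  rw [h, top_le_iff] at hle
  exact LinearMap.ker_eq_top.1 hle

section

variable {K : Type} [Field K] [CharZero K] [IsAlgClosed K]

/-- If the radical acts by semisimple operators that commute with the Lie algebra, the module is
completely reducible. -/
theorem compl_of_central {L : Type} [LieRing L] [LieAlgebra K L] [FiniteDimensional K L]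
    {M : Type} [AddCommGroup M] [Module K M] [LieRingModule L M] [LieModule K L M]
    [FiniteDimensional K M] (hc : ∀ z ∈ radical K L, ∀ (x : L) (m : M), ⁅z, ⁅x, m⁆⁆ = ⁅x, ⁅z, m⁆⁆)
    (hs : ∀ z ∈ radical K L, (LieModule.toEnd K L M z).IsSemisimple)
    (W : LieSubmodule K L M) : ∃ W' : LieSubmodule K L M, IsCompl W W' := by
  let E : (radical K L → K) → LieSubmodule K L M := fun χ =>
    { carrier := {v | ∀ i : radical K L, ⁅(i : L), v⁆ = χ i • v}
      add_mem' := by
        intro a b ha hb i
        rw [lie_add, ha, hb, smul_add]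
      zero_mem' := by
        intro i
        rw [lie_zero, smul_zero]
      smul_mem' := by
        intro c a ha i
        rw [lie_smul, ha, smul_comm]
      lie_mem := by
        intro X v hv i
        rw [hc i i.2, hv i, lie_smul] }
  have hE : ∀ χ v, v ∈ E χ ↔ ∀ i : radical K L, ⁅(i : L), v⁆ = χ i • v :=
    fun χ v => Iff.rfl
  have hsup : sSup (Set.range E) = ⊤ := by
    rw [sSup_range, ← LieSubmodule.toSubmodule_inj, LieSubmodule.iSup_toSubmodule,
      LieSubmodule.top_toSubmodule]
    have h1 := Module.End.iSup_iInf_maxGenEigenspace_eq_top_of_iSup_maxGenEigenspace_eq_top_of_commute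
      (K := K) (M := M) (fun i : radical K L => LieModule.toEnd K L M (i : L))
      (fun i j _ => by
        ext m
        exact hc i i.2 j m)
      (fun i => Module.End.iSup_maxGenEigenspace_eq_top _)
    rw [← h1]
    refine iSup_congr fun χ => ?_
    ext v
    rw [Submodule.mem_iInf]
    refine forall_congr' fun i => ?_
    rw [(hs i i.2).isFinitelySemisimple.maxGenEigenspace_eq_eigenspace, End.mem_eigenspace_iff]
    rfl
  refine Cb.a19237_S (Set.range E) hsup ?_ W
  rintro X ⟨χ, rfl⟩ W hW
  obtain ⟨K₀, hK₀⟩ := Cb.a19237_B (splitC K) L (E χ) (by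
    intro z hz
    refine ⟨χ ⟨z, hz⟩, fun v => ?_⟩
    apply Subtype.ext
    exact (hE χ v).1 v.2 ⟨z, hz⟩) (W.comap (E χ).incl)
  refine ⟨K₀.map (E χ).incl, ?_, ?_, ?_⟩
  · rintro x hx
    rw [LieSubmodule.mem_map] at hx
    obtain ⟨y, _, rfl⟩ := hx
    exact y.2
  · rw [eq_bot_iff]
    intro x hx
    rw [LieSubmodule.mem_inf, LieSubmodule.mem_map] at hx
    obtain ⟨hxW, y, hy, rfl⟩ := hx
    have h1 : y ∈ W.comap (E χ).incl := by
      rw [LieSubmodule.mem_comap]; exact hxW
    have h2 : y ∈ (⊥ : LieSubmodule K L (E χ)) := by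
      rw [← hK₀.inf_eq_bot, LieSubmodule.mem_inf]
      exact ⟨h1, hy⟩
    rw [LieSubmodule.mem_bot] at h2
    rw [h2, LieSubmodule.mem_bot]
    rfl
  · apply le_antisymm
    · apply sup_le hW
      rintro x hx
      rw [LieSubmodule.mem_map] at hx
      obtain ⟨y, _, rfl⟩ := hx
      exact y.2
    · intro x hx
      have h1 : (⟨x, hx⟩ : E χ) ∈ W.comap (E χ).incl ⊔ K₀ := by
        rw [hK₀.sup_eq_top]; trivial
      rw [LieSubmodule.mem_sup] at h1
      obtain ⟨y, hy, z, hz, hyz⟩ := h1
      rw [LieSubmodule.mem_sup]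
      rw [LieSubmodule.mem_comap] at hy
      refine ⟨y, hy, z, ?_, congrArg Subtype.val hyz⟩
      rw [LieSubmodule.mem_map]
      exact ⟨z, hz, rfl⟩

end

section

attribute [local instance 100] LieRing.ofAssociativeRing

/-- The Lie algebra `L`. -/
def LA {K V : Type} [Field K] [AddCommGroup V] [Module K V] (L : Submodule K (End K V))
    (hL : ∀ x ∈ L, ∀ y ∈ L, x * y - y * x ∈ L) : LieSubalgebra K (Module.End K V) :=
  { L with
    lie_mem' := fun {x y} hx hy => by
      rw [Ring.lie_def]
      exact hL x hx y hy }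

/-- A representation of a Lie algebra `L` of operators on `V` for which `V` is completely
reducible, such that semisimple central operators act by semisimple operators, is completely
reducible: there are equivariant projections. -/
theorem exists_projector {K : Type} [Field K] [CharZero K] [IsAlgClosed K] {V M : Type}
    [AddCommGroup V] [Module K V] [FiniteDimensional K V] [AddCommGroup M] [Module K M]
    [FiniteDimensional K M] (L : Submodule K (End K V))
    (hL : ∀ x ∈ L, ∀ y ∈ L, x * y - y * x ∈ L)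
    (hV : ∀ W : Submodule K V, (∀ x ∈ L, ∀ w ∈ W, x w ∈ W) →
      ∃ W' : Submodule K V, (∀ x ∈ L, ∀ w ∈ W', x w ∈ W') ∧ IsCompl W W')
    (δ : End K V →ₗ[K] End K M)
    (hδ : ∀ x ∈ L, ∀ y ∈ L, δ (x * y - y * x) = δ x * δ y - δ y * δ x)
    (hss : ∀ z ∈ L, z.IsSemisimple → (δ z).IsSemisimple)
    (W : Submodule K M) (hW : ∀ x ∈ L, ∀ w ∈ W, δ x w ∈ W) :
    ∃ P : End K M, (∀ x ∈ L, P * δ x = δ x * P) ∧ (∀ m, P m ∈ W) ∧ ∀ w ∈ W, P w = w := by
  haveI : FiniteDimensional K (LA L hL) := inferInstanceAs (FiniteDimensional K L)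
  -- `V` as a module
  have hVL : ∀ W : LieSubmodule K (LA L hL) V, ∃ W' : LieSubmodule K (LA L hL) V,
      IsCompl W W' := by
    intro W
    obtain ⟨W', h1, h2⟩ := hV W.toSubmodule
      (fun x hx w hw => W.lie_mem (x := (⟨x, hx⟩ : LA L hL)) hw)
    refine ⟨{ W' with lie_mem := fun {x m} hm => h1 x.1 x.2 m hm }, ?_⟩
    rw [isCompl_iff, disjoint_iff, codisjoint_iff] at h2 ⊢
    constructor
    · rw [eq_bot_iff]
      intro v hv
      rw [LieSubmodule.mem_inf] at hv
      have h3 : v ∈ W.toSubmodule ⊓ W' := ⟨hv.1, hv.2⟩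
      rw [h2.1, Submodule.mem_bot] at h3
      rw [LieSubmodule.mem_bot]
      exact h3
    · rw [eq_top_iff]
      intro v _
      have h3 : v ∈ W.toSubmodule ⊔ W' := by rw [h2.2]; trivial
      rw [Submodule.mem_sup] at h3
      rw [LieSubmodule.mem_sup]
      exact h3
  have hatoms := Cb.a19237_sSup hVL
  have htop : (⊤ : Submodule K V) =
      ⨆ T : {T : LieSubmodule K (LA L hL) V // IsAtom T}, T.1.toSubmodule := by
    have h1 : (sSup {T : LieSubmodule K (LA L hL) V | IsAtom T}).toSubmodule = ⊤ := by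
      rw [hatoms]
      rfl
    rw [← h1, LieSubmodule.sSup_toSubmodule_eq_iSup, iSup_subtype]
    rfl
  -- the radical
  have hrad : ∀ z ∈ radical K (LA L hL), (z : End K V).IsSemisimple ∧
      ∀ x ∈ L, (z : End K V) * x = x * z := by
    intro z hz
    constructor
    · apply semis
      rw [eq_top_iff, htop]
      refine iSup_le fun T => ?_
      obtain ⟨c, hc⟩ := Cb.a19237_R T.1 T.2 z hz
      refine le_trans ?_ (le_iSup _ c)
      intro v hv
      rw [End.mem_eigenspace_iff]
      exact hc v hv
    · intro x hx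
      rw [← sub_eq_zero, ← LinearMap.ker_eq_top, eq_top_iff, htop]
      refine iSup_le fun T => ?_
      obtain ⟨c, hc⟩ := Cb.a19237_R T.1 T.2 z hz
      intro v hv
      rw [LinearMap.mem_ker, LinearMap.sub_apply, Module.End.mul_apply, Module.End.mul_apply]
      have h1 : (z : End K V) v = c • v := hc v hv
      have h2 : (z : End K V) (x v) = c • x v := hc (x v) (T.1.lie_mem (x := (⟨x, hx⟩ : LA L hL)) hv)
      rw [h1, h2, map_smul, sub_self]
  -- `M` as a module
  let φ : LA L hL →ₗ⁅K⁆ Module.End K M :=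
    { δ.comp (LA L hL).toSubmodule.subtype with
      map_lie' := by
        rintro ⟨x, hx⟩ ⟨y, hy⟩
        exact hδ x hx y hy }
  letI i1 : LieRingModule (LA L hL) M := LieRingModule.compLieHom M φ
  haveI i2 : LieModule K (LA L hL) M := LieModule.compLieHom M φ
  have hact : ∀ (x : LA L hL) (m : M), ⁅x, m⁆ = δ (x : End K V) m := fun x m => rfl
  obtain ⟨W', hW'⟩ := compl_of_central (K := K) (L := LA L hL) (M := M) (by
      intro z hz x m
      rw [hact, hact, hact, hact]
      have h1 := hδ z z.2 x x.2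
      rw [(hrad z hz).2 x x.2, sub_self, map_zero] at h1
      have h2 := congrArg (fun f : End K M => f m) h1
      rw [LinearMap.zero_apply, LinearMap.sub_apply, Module.End.mul_apply,
        Module.End.mul_apply] at h2
      exact (sub_eq_zero.1 h2.symm)) (by
      intro z hz
      have h1 : LieModule.toEnd K (LA L hL) M z = δ z := rfl
      rw [h1]
      exact hss z z.2 (hrad z hz).1)
    { W with lie_mem := fun {x m} hm => hW x.1 x.2 m hm }
  set W₀ : LieSubmodule K (LA L hL) M := { W with lie_mem := fun {x m} hm => hW x.1 x.2 m hm }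
    with hW₀
  have hc : IsCompl W W'.toSubmodule := by
    have h1 := hW'.inf_eq_bot
    have h2 := hW'.sup_eq_top
    constructor
    · rw [disjoint_iff, eq_bot_iff]
      rintro v ⟨hv1, hv2⟩
      have h3 : v ∈ W₀ ⊓ W' := by
        rw [LieSubmodule.mem_inf]
        exact ⟨hv1, hv2⟩
      rw [h1, LieSubmodule.mem_bot] at h3
      rw [Submodule.mem_bot]
      exact h3
    · rw [codisjoint_iff, eq_top_iff]
      intro v _
      have h3 : v ∈ W₀ ⊔ W' := by
        rw [h2]; trivial
      rw [LieSubmodule.mem_sup] at h3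
      rw [Submodule.mem_sup]
      exact h3
  have hdec : ∀ v : M, ∃ a ∈ W, ∃ b ∈ W'.toSubmodule, a + b = v := by
    intro v
    have h3 : v ∈ W ⊔ W'.toSubmodule := by rw [hc.sup_eq_top]; trivial
    rwa [Submodule.mem_sup] at h3
  set P : End K M := W.subtype ∘ₗ Submodule.projectionOnto W W'.toSubmodule hc with hP
  have hP1 : ∀ a ∈ W, P a = a := by
    intro a ha
    have := Submodule.projectionOnto_apply_left hc ⟨a, ha⟩
    show ((Submodule.projectionOnto W W'.toSubmodule hc a : W) : M) = a
    rw [this]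
  have hP2 : ∀ b ∈ W'.toSubmodule, P b = 0 := by
    intro b hb
    have := (Submodule.projectionOnto_apply_eq_zero_iff hc (x := b)).2 hb
    show ((Submodule.projectionOnto W W'.toSubmodule hc b : W) : M) = 0
    rw [this]
    rfl
  refine ⟨P, ?_, fun x => (Submodule.projectionOnto W W'.toSubmodule hc x).2, hP1⟩
  intro X hX
  ext v
  obtain ⟨a, ha, b, hb, rfl⟩ := hdec v
  have hXb : δ X b ∈ W'.toSubmodule := W'.lie_mem (x := (⟨X, hX⟩ : LA L hL)) hb
  rw [Module.End.mul_apply, Module.End.mul_apply, map_add, map_add, map_add, map_add, hP1 a ha,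
    hP2 b hb, hP1 _ (hW X hX a ha), hP2 _ hXb, map_zero]

end

end Pool.Agent.L5helper27.MM
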