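import Mathlib
import Pool.Agent.W528.ZC.FinDefs2

/-!
# Definitions for the criterion with the endomorphisms of the middle cohomology
-/

namespace Pool.Agent.L5helper27.MM

open Pool.Agent.W528.ZC

noncomputable section

/-- The `n`-th tensor power of the matrix `x`: a matrix with rows and columns indexed by the
functions `Fin n → ι`. -/
def tpow {R : Type} [CommRing R] {ι : Type} (n : ℕ) (x : Matrix ι ι R) :
    Matrix (Fin n → ι) (Fin n → ι) R :=
  Matrix.of fun i j => ∏ k, x (i k) (j k)

/-- The matrix `T` on the `n`-th tensor power is alternating in the rows and in the columns: it is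
an endomorphism of the `n`-th exterior power. -/
def AltM {R : Type} [CommRing R] {ι : Type} {n : ℕ} (T : Matrix (Fin n → ι) (Fin n → ι) R) :
    Prop :=
  ∀ (σ : Equiv.Perm (Fin n)) (i j : Fin n → ι),
    T (i ∘ σ) j = ((Equiv.Perm.sign σ : ℤ) : R) * T i j ∧
    T i (j ∘ σ) = ((Equiv.Perm.sign σ : ℤ) : R) * T i j

variable {ι : Type} [Fintype ι] [DecidableEq ι]

/-- The monoid generated by the invertible matrices `a + b σ(J)`, `a`, `b` complex numbers and
`σ` an automorphism of the field `ℂ`.  The Mumford-Tate group of the complex structure `J` is the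
Zariski closure of this group. -/
def MTGen (J : Matrix ι ι ℝ) : Submonoid (Matrix ι ι ℂ) :=
  Submonoid.closure {x | ∃ (σ : ℂ ≃+* ℂ) (a b : ℂ), a ^ 2 + b ^ 2 ≠ 0 ∧
    x = a • (1 : Matrix ι ι ℂ) + b • J.map fun t : ℝ => σ (t : ℂ)}

/-- The rational polynomial `r` in the entries of a matrix is in the ideal of the Mumford-Tate
group of the complex structure `J`. -/
def InMTIdeal (J : Matrix ι ι ℝ) (r : MvPolynomial (ι × ι) ℚ) : Prop :=
  ∀ x ∈ MTGen J, MvPolynomial.aeval (fun p : ι × ι => x p.1 p.2) r = 0

/-- The rational matrix `T` on the `n`-th tensor power is alternating and commutes with the tensor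
powers of all `a + b J`: it is an endomorphism of the Hodge structure on the `n`-th exterior
power. -/
def HodgeEnd (n : ℕ) (J : Matrix ι ι ℝ) (T : Matrix (Fin n → ι) (Fin n → ι) ℚ) : Prop :=
  AltM T ∧ ∀ a b : ℝ, a ≠ 0 ∨ b ≠ 0 →
    T.map (algebraMap ℚ ℝ) * tpow n (a • (1 : Matrix ι ι ℝ) + b • J) =
      tpow n (a • (1 : Matrix ι ι ℝ) + b • J) * T.map (algebraMap ℚ ℝ)

variable {k : Type} [Field k] [CharZero k] {Γ : Type} [Group Γ]

/-- The matrix `T` over `k` on the `n`-th tensor power is alternating and commutes with the tensor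
powers of the `ρ s`, `s` in a subgroup of finite index: it is an endomorphism of the `n`-th
exterior power of `ρ` over some finite extension. -/
def TateEnd (n : ℕ) (ρ : Γ →* Matrix ι ι k) (T : Matrix (Fin n → ι) (Fin n → ι) k) : Prop :=
  AltM T ∧ ∃ Δ : Subgroup Γ, Δ.FiniteIndex ∧ ∀ s ∈ Δ, T * tpow n (ρ s) = tpow n (ρ s) * T

/-- Every endomorphism of the `n`-th exterior power of `ρ` (over some finite extension) is a
combination of endomorphisms of the Hodge structure. -/
def EndTate (n : ℕ) (ρ : Γ →* Matrix ι ι k) (J : Matrix ι ι ℝ) : Prop :=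
  ∀ T : Matrix (Fin n → ι) (Fin n → ι) k, TateEnd n ρ T →
    T ∈ Submodule.span k {T' : Matrix (Fin n → ι) (Fin n → ι) k |
      ∃ T₀ : Matrix (Fin n → ι) (Fin n → ι) ℚ, HodgeEnd n J T₀ ∧ T' = T₀.map (algebraMap ℚ k)}

/-- The Mumford-Tate group is contained in the connected monodromy group of `ρ` (over `Ω`): the
polynomials that vanish on the image of a subgroup of finite index are combinations of polynomials
in the ideal of the Mumford-Tate group. -/
def MTIn (Ω : Type) [Field Ω] [CharZero Ω] [Algebra k Ω] (ρ : Γ →* Matrix ι ι k)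
    (J : Matrix ι ι ℝ) : Prop :=
  ∀ f : MvPolynomial (ι × ι) Ω, Vanishes ρ f →
    f ∈ Submodule.span Ω {q : MvPolynomial (ι × ι) Ω |
      ∃ r : MvPolynomial (ι × ι) ℚ, InMTIdeal J r ∧ q = MvPolynomial.map (algebraMap ℚ Ω) r}

end

end Pool.Agent.L5helper27.MM
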