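import Mathlib
import Pool.Agent.L5helper27.MM.Defs

/-!
# Tensor powers of matrices and the derivations
-/

set_option linter.unusedSectionVars false

open Module Matrix

namespace Pool.Agent.L5helper27.MM

noncomputable section

section ring

variable {R : Type} [CommRing R] {ι : Type} [Fintype ι] [DecidableEq ι] {n : ℕ}

/-- The tensor product of `n` matrices, as a matrix on `Fin n → ι`. -/
def tens (x : Fin n → Matrix ι ι R) : Matrix (Fin n → ι) (Fin n → ι) R :=
  Matrix.of fun i j => ∏ k, x k (i k) (j k)

theorem tens_apply (x : Fin n → Matrix ι ι R) (i j : Fin n → ι) :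
    tens x i j = ∏ k, x k (i k) (j k) := rfl

theorem tpow_apply (x : Matrix ι ι R) (i j : Fin n → ι) :
    tpow n x i j = ∏ k, x (i k) (j k) := rfl

theorem tpow_eq (x : Matrix ι ι R) : tpow n x = tens fun _ => x := rfl

theorem tens_mul (x y : Fin n → Matrix ι ι R) : tens x * tens y = tens (x * y) := by
  ext i j
  rw [Matrix.mul_apply, tens_apply]
  simp only [Pi.mul_apply, Matrix.mul_apply]
  rw [Finset.prod_univ_sum, Fintype.piFinset_univ]
  refine Finset.sum_congr rfl fun l _ => ?_
  rw [tens_apply, tens_apply, Finset.prod_mul_distrib]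

theorem tens_one : tens (1 : Fin n → Matrix ι ι R) = 1 := by
  ext i j
  rw [tens_apply]
  by_cases h : i = j
  · subst h
    simp
  · rw [Matrix.one_apply_ne h]
    obtain ⟨k, hk⟩ := Function.ne_iff.1 h
    exact Finset.prod_eq_zero (Finset.mem_univ k) (by rw [Pi.one_apply, Matrix.one_apply_ne hk])

theorem tpow_mul (x y : Matrix ι ι R) : tpow n (x * y) = tpow n x * tpow n y :=
  (tens_mul _ _).symm

theorem tpow_one : tpow n (1 : Matrix ι ι R) = 1 := tens_one

/-- `tens` as a multilinear map. -/
def tensM (n : ℕ) : MultilinearMap R (fun _ : Fin n => Matrix ι ι R)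
    (Matrix (Fin n → ι) (Fin n → ι) R) where
  toFun := tens
  map_update_add' := by
    intro _ x k a b
    ext i j
    rw [Matrix.add_apply]
    have h := ((MultilinearMap.mkPiAlgebra R (Fin n) R).compLinearMap
      (fun k => Matrix.entryLinearMap R R (i k) (j k))).map_update_add x k a b
    simp only [MultilinearMap.compLinearMap_apply, MultilinearMap.mkPiAlgebra_apply,
      Matrix.entryLinearMap_apply] at h
    exact h
  map_update_smul' := by
    intro _ x k c a
    ext i j
    rw [Matrix.smul_apply]
    have h := ((MultilinearMap.mkPiAlgebra R (Fin n) R).compLinearMap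
      (fun k => Matrix.entryLinearMap R R (i k) (j k))).map_update_smul x k c a
    simp only [MultilinearMap.compLinearMap_apply, MultilinearMap.mkPiAlgebra_apply,
      Matrix.entryLinearMap_apply] at h
    exact h

theorem tensM_apply (x : Fin n → Matrix ι ι R) : tensM n x = tens x := rfl

/-- The matrix `x` in the slot `k`. -/
def slot (k : Fin n) : Matrix ι ι R →ₗ[R] Matrix (Fin n → ι) (Fin n → ι) R where
  toFun x := tens (Function.update 1 k x)
  map_add' x y := (tensM n).map_update_add 1 k x y
  map_smul' c x := (tensM n).map_update_smul 1 k c x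

theorem slot_apply (k : Fin n) (x : Matrix ι ι R) : slot k x = tens (Function.update 1 k x) := rfl

theorem slot_mul (k : Fin n) (x y : Matrix ι ι R) : slot k (x * y) = slot k x * slot k y := by
  rw [slot_apply, slot_apply, slot_apply, tens_mul]
  congr 1
  funext l
  by_cases h : l = k
  · subst h
    simp
  · simp [Function.update_of_ne h]

theorem slot_one (k : Fin n) : slot k (1 : Matrix ι ι R) = 1 := by
  rw [slot_apply]
  rw [show Function.update (1 : Fin n → Matrix ι ι R) k 1 = 1 from Function.update_eq_self k 1]
  exact tens_one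

theorem slot_comm {k l : Fin n} (h : k ≠ l) (x y : Matrix ι ι R) :
    slot k x * slot l y = slot l y * slot k x := by
  rw [slot_apply, slot_apply, tens_mul, tens_mul]
  congr 1
  funext m
  by_cases h1 : m = k
  · subst h1
    simp [Function.update_of_ne h]
  · by_cases h2 : m = l
    · subst h2
      simp [Function.update_of_ne h1]
    · simp [Function.update_of_ne h1, Function.update_of_ne h2]

/-- The slot map as a homomorphism of algebras. -/
def slotA (k : Fin n) : Matrix ι ι R →ₐ[R] Matrix (Fin n → ι) (Fin n → ι) R :=
  AlgHom.ofLinearMap (slot k) (slot_one k) (slot_mul k)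

/-- The derivation of the tensor power given by a matrix. -/
def Dn (n : ℕ) : Matrix ι ι R →ₗ[R] Matrix (Fin n → ι) (Fin n → ι) R := ∑ k, slot k

theorem Dn_apply (x : Matrix ι ι R) : Dn n x = ∑ k, slot k x := by
  unfold Dn
  rw [LinearMap.sum_apply]

theorem Dn_br (x y : Matrix ι ι R) : Dn n (x * y - y * x) = Dn n x * Dn n y - Dn n y * Dn n x := by
  have h1 : ∀ x y : Matrix ι ι R, Dn n x * Dn n y =
      Dn n (x * y) + ∑ k, ∑ l, if k = l then 0 else slot k x * slot l y := by
    intro x y
    rw [Dn_apply, Dn_apply, Dn_apply, Finset.sum_mul_sum, ← Finset.sum_add_distrib]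
    refine Finset.sum_congr rfl fun k _ => ?_
    rw [← Finset.add_sum_erase _ _ (Finset.mem_univ k), ← slot_mul]
    congr 1
    rw [← Finset.add_sum_erase _ (fun l => if k = l then 0 else slot k x * slot l y)
      (Finset.mem_univ k), if_pos rfl, zero_add]
    refine Finset.sum_congr rfl fun l hl => ?_
    rw [if_neg (Finset.ne_of_mem_erase hl).symm]
  have h2 : (∑ k : Fin n, ∑ l : Fin n, if k = l then 0 else slot k x * slot l y) =
      ∑ k : Fin n, ∑ l : Fin n, if k = l then 0 else slot k y * slot l x := by
    rw [Finset.sum_comm]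
    refine Finset.sum_congr rfl fun k _ => Finset.sum_congr rfl fun l _ => ?_
    by_cases h : k = l
    · rw [if_pos h, if_pos h.symm]
    · rw [if_neg h, if_neg (Ne.symm h), slot_comm (Ne.symm h)]
  rw [h1 x y, h1 y x, h2, map_sub]
  abel

theorem tpow_perm (x : Matrix ι ι R) (σ : Equiv.Perm (Fin n)) (i j : Fin n → ι) :
    tpow n x (i ∘ σ) (j ∘ σ) = tpow n x i j :=
  Equiv.prod_comp σ (fun k => x (i k) (j k))

theorem Dn_perm (x : Matrix ι ι R) (σ : Equiv.Perm (Fin n)) (i j : Fin n → ι) :
    Dn n x (i ∘ σ) (j ∘ σ) = Dn n x i j := by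
  rw [Dn_apply, Matrix.sum_apply, Matrix.sum_apply,
    ← Equiv.sum_comp σ (fun k => slot k x i j)]
  refine Finset.sum_congr rfl fun k _ => ?_
  rw [slot_apply, slot_apply, tens_apply, tens_apply,
    ← Equiv.prod_comp σ (fun m => (Function.update (1 : Fin n → Matrix ι ι R) (σ k) x) m
      (i m) (j m))]
  refine Finset.prod_congr rfl fun l _ => ?_
  by_cases h : l = k
  · subst h
    simp
  · rw [Function.update_of_ne h, Function.update_of_ne (fun h' => h (σ.injective h'))]
    rfl

end ring

section field

variable {K : Type} [Field K] {ι : Type} [Fintype ι] [DecidableEq ι] {n : ℕ}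

theorem tens_piecewise_smul (c : K) (a b : Matrix ι ι K) (s : Finset (Fin n)) :
    tens (s.piecewise (fun _ => c • a) fun _ => b) =
      c ^ s.card • tens (s.piecewise (fun _ => a) fun _ => b) := by
  have h := (tensM n).map_piecewise_smul (fun _ => c)
    (s.piecewise (fun _ => a) fun _ => b) s
  rw [Finset.prod_const, tensM_apply, tensM_apply] at h
  rw [← h]
  congr 1
  funext k
  by_cases hk : k ∈ s
  · simp [hk]
  · simp [hk]

theorem tpow_add_smul (c : K) (a b : Matrix ι ι K) :
    tpow n (c • a + b) = ∑ s : Finset (Fin n), c ^ s.card •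
      tens (s.piecewise (fun _ => a) fun _ => b) := by
  have h := (tensM n).map_add_univ (fun _ => c • a) (fun _ => b)
  rw [tensM_apply] at h
  have h1 : tpow n (c • a + b) = tens ((fun _ : Fin n => c • a) + fun _ => b) := rfl
  rw [h1, h]
  refine Finset.sum_congr rfl fun s _ => ?_
  exact tens_piecewise_smul c a b s

/-- If `T` commutes with the tensor powers of `1 + c X` for infinitely many `c` then it commutes
with the derivation given by `X`. -/
theorem comm_Dn_of_tpow (T : Matrix (Fin n → ι) (Fin n → ι) K) (X : Matrix ι ι K)
    (h : {c : K | T * tpow n (c • X + 1) = tpow n (c • X + 1) * T}.Infinite) :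
    T * Dn n X = Dn n X * T := by
  rw [← sub_eq_zero]
  ext i j
  let e : Finset (Fin n) → Matrix (Fin n → ι) (Fin n → ι) K := fun s =>
    tens (s.piecewise (fun _ => X) fun _ => 1)
  let P : Polynomial K := ∑ s : Finset (Fin n),
    Polynomial.monomial s.card ((T * e s - e s * T) i j)
  have hev : ∀ c : K, P.eval c = (T * tpow n (c • X + 1) - tpow n (c • X + 1) * T :
      Matrix (Fin n → ι) (Fin n → ι) K) i j := by
    intro c
    rw [tpow_add_smul, Polynomial.eval_finsetSum, Finset.mul_sum, Finset.sum_mul,
      ← Finset.sum_sub_distrib, Matrix.sum_apply]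
    refine Finset.sum_congr rfl fun s _ => ?_
    rw [Polynomial.eval_monomial, mul_smul_comm, smul_mul_assoc, ← smul_sub, Matrix.smul_apply,
      smul_eq_mul, mul_comm]
  have h0 : P = 0 := by
    apply Polynomial.eq_zero_of_infinite_isRoot
    refine h.mono fun c hc => ?_
    show P.eval c = 0
    rw [hev, hc, sub_self, Matrix.zero_apply]
  have h1 : P.coeff 1 = (T * Dn n X - Dn n X * T) i j := by
    have h2 : ∀ s : Finset (Fin n), (Polynomial.monomial s.card ((T * e s - e s * T) i j)).coeff 1 =
        if s.card = 1 then (T * e s - e s * T) i j else 0 := fun s => Polynomial.coeff_monomial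
    rw [Polynomial.finsetSum_coeff, Finset.sum_congr rfl fun s _ => h2 s, ← Finset.sum_filter]
    have h3 : (Finset.univ.filter fun s : Finset (Fin n) => s.card = 1) =
        Finset.univ.image fun k : Fin n => ({k} : Finset (Fin n)) := by
      ext s
      rw [Finset.mem_filter, Finset.card_eq_one]
      simp only [Finset.mem_univ, true_and, Finset.mem_image]
      constructor
      · rintro ⟨a, rfl⟩
        exact ⟨a, rfl⟩
      · rintro ⟨a, rfl⟩
        exact ⟨a, rfl⟩
    rw [h3, Finset.sum_image (fun a _ b _ hab => Finset.singleton_injective hab), Dn_apply,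
      Finset.mul_sum, Finset.sum_mul, ← Finset.sum_sub_distrib, Matrix.sum_apply]
    refine Finset.sum_congr rfl fun k _ => ?_
    have h4 : e {k} = slot k X := by
      rw [slot_apply]
      show tens _ = tens _
      rw [Finset.piecewise_singleton]
      rfl
    rw [h4]
  rw [← h1, h0, Polynomial.coeff_zero, Matrix.zero_apply]

/-- If `T` commutes with the derivation given by an idempotent matrix `p`, it commutes with the
tensor powers of `1 - p + c p`. -/
theorem comm_tpow_of_Dn [CharZero K] (T : Matrix (Fin n → ι) (Fin n → ι) K) {p : Matrix ι ι K}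
    (hp : p * p = p) (h : T * Dn n p = Dn n p * T) (c : K) :
    T * tpow n (1 - p + c • p) = tpow n (1 - p + c • p) * T := by
  classical
  let e : Finset (Fin n) → Matrix (Fin n → ι) (Fin n → ι) K := fun s =>
    tens (s.piecewise (fun _ => p) fun _ => 1 - p)
  have hDe : ∀ s, Dn n p * e s = (s.card : K) • e s := by
    intro s
    have h1 : ∀ k : Fin n, slot k p * e s = if k ∈ s then e s else 0 := by
      intro k
      rw [slot_apply]
      show tens _ * tens _ = _
      rw [tens_mul]
      split_ifs with hk
      · show tens _ = tens _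
        congr 1
        funext l
        by_cases hl : l = k
        · subst hl
          simp [hk, hp]
        · simp [Function.update_of_ne hl]
      · ext i j
        rw [tens_apply, Matrix.zero_apply]
        refine Finset.prod_eq_zero (Finset.mem_univ k) ?_
        rw [Pi.mul_apply, Function.update_self, Finset.piecewise_eq_of_notMem _ _ _ hk, mul_sub,
          mul_one, hp, sub_self, Matrix.zero_apply]
    rw [Dn_apply, Finset.sum_mul, Finset.sum_congr rfl fun k _ => h1 k, ← Finset.sum_filter,
      Finset.sum_const, ← Nat.cast_smul_eq_nsmul K]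
    congr 2
    congr 1
    ext k
    simp
  have haev : ∀ (q : Polynomial K) (s : Finset (Fin n)),
      Polynomial.aeval (Dn n p) q * e s = q.eval (s.card : K) • e s := by
    intro q s
    induction q using Polynomial.induction_on' with
    | add q r hq hr => rw [map_add, add_mul, hq, hr, Polynomial.eval_add, add_smul]
    | monomial m a =>
      rw [Polynomial.aeval_monomial, Polynomial.eval_monomial]
      have h2 : ∀ m : ℕ, Dn n p ^ m * e s = ((s.card : K) ^ m) • e s := by
        intro m
        induction m with
        | zero => rw [pow_zero, one_mul, pow_zero, one_smul]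
        | succ m ih =>
          rw [pow_succ', mul_assoc, ih, mul_smul_comm, hDe, smul_smul, pow_succ]
      rw [mul_assoc, h2, mul_smul_comm, Algebra.algebraMap_eq_smul_one, smul_mul_assoc, one_mul,
        smul_smul, mul_comm]
  let v : ℕ → K := fun m => (m : K)
  let q : Polynomial K := Lagrange.interpolate (Finset.range (n + 1)) v fun m => c ^ m
  have hq : ∀ s : Finset (Fin n), q.eval (s.card : K) = c ^ s.card := by
    intro s
    refine Lagrange.eval_interpolate_at_node (v := v) (fun m => c ^ m)
      (fun a _ b _ hab => Nat.cast_injective hab) ?_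
    rw [Finset.mem_range]
    have := Finset.card_le_univ s
    rw [Fintype.card_fin] at this
    omega
  have hsum1 : (1 : Matrix (Fin n → ι) (Fin n → ι) K) = ∑ s : Finset (Fin n), e s := by
    have h3 := tpow_add_smul (n := n) (1 : K) p (1 - p)
    simp only [one_pow, one_smul] at h3
    rw [← h3, add_sub_cancel, tpow_one]
  have hT : tpow n (1 - p + c • p) = Polynomial.aeval (Dn n p) q := by
    rw [add_comm, tpow_add_smul]
    conv_rhs => rw [← mul_one (Polynomial.aeval (Dn n p) q), hsum1, Finset.mul_sum]
    refine Finset.sum_congr rfl fun s _ => ?_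
    rw [haev, hq]
  rw [hT]
  have hc : Commute T (Dn n p) := h
  have : ∀ r : Polynomial K, Commute T (Polynomial.aeval (Dn n p) r) := by
    intro r
    induction r using Polynomial.induction_on' with
    | add q r hq hr => rw [map_add]; exact hq.add_right hr
    | monomial m a =>
      rw [Polynomial.aeval_monomial]
      have h5 : Commute T (algebraMap K (Matrix (Fin n → ι) (Fin n → ι) K) a) :=
        (Algebra.commutes a T).symm
      exact h5.mul_right (hc.pow_right m)
  exact this q

/-- The derivation given by a semisimple operator is semisimple. -/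
theorem Dn_semisimple [CharZero K] (f : End K (ι → K)) (hf : f.IsSemisimple) :
    Module.End.IsSemisimple (Matrix.toLin' (Dn n (LinearMap.toMatrix' f))) := by
  let SE : Fin n → (End K (ι → K) →ₐ[K] End K ((Fin n → ι) → K)) := fun k =>
    ((Matrix.toLinAlgEquiv' (R := K) (n := Fin n → ι)).toAlgHom.comp (slotA k)).comp
      (LinearMap.toMatrixAlgEquiv' (R := K) (n := ι)).toAlgHom
  have hSE : ∀ k, SE k f = Matrix.toLin' (slot k (LinearMap.toMatrix' f)) := fun k => rfl
  have h1 : ∀ k, (SE k f).IsSemisimple := by
    intro k
    refine End.isSemisimple_of_squarefree_aeval_eq_zero (p := minpoly K f) hf.minpoly_squarefree ?_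
    rw [Polynomial.aeval_algHom_apply, minpoly.aeval, map_zero]
  have h2 : ∀ k l, Commute (SE k f) (SE l f) := by
    intro k l
    by_cases h : k = l
    · rw [h]
    · have h3 := slot_comm h (LinearMap.toMatrix' f) (LinearMap.toMatrix' f)
      show SE k f * SE l f = SE l f * SE k f
      rw [hSE, hSE, Module.End.mul_eq_comp, Module.End.mul_eq_comp, ← Matrix.toLin'_mul,
        ← Matrix.toLin'_mul, h3]
  have h3 : ∀ s : Finset (Fin n), (∑ k ∈ s, SE k f).IsSemisimple := by
    intro s
    induction s using Finset.induction_on with
    | empty => rw [Finset.sum_empty]; exact End.isSemisimple_zero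
    | insert a s ha ih =>
      rw [Finset.sum_insert ha]
      exact End.IsSemisimple.add_of_commute (Commute.sum_right _ _ _ fun l _ => h2 a l) (h1 a) ih
  have h4 := h3 Finset.univ
  rw [Finset.sum_congr rfl fun k _ => hSE k, ← map_sum, ← Dn_apply] at h4
  exact h4

end field

end

end Pool.Agent.L5helper27.MM
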