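import Mathlib
import Pool.Agent.L5helper27.MM.Tens

/-!
# The highest weight step
-/

set_option linter.unusedSectionVars false

open Module Matrix

namespace Pool.Agent.L5helper27.MM

noncomputable section

variable {K : Type} [Field K] {ι : Type} [Fintype ι] [DecidableEq ι] {n : ℕ}

/-- The multilinear form on the dual space given by a tensor. -/
def G (t : (Fin n → ι) → K) : MultilinearMap K (fun _ : Fin n => ι → K) K :=
  ∑ i, t i • (MultilinearMap.mkPiAlgebra K (Fin n) K).compLinearMap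
    (fun k => LinearMap.proj (i k))

theorem G_apply (t : (Fin n → ι) → K) (ξ : Fin n → ι → K) :
    G t ξ = ∑ i, t i * ∏ k, ξ k (i k) := by
  unfold G
  rw [_root_.sum_apply]
  refine Finset.sum_congr rfl fun i _ => ?_
  rw [_root_.smul_apply, MultilinearMap.compLinearMap_apply,
    MultilinearMap.mkPiAlgebra_apply, smul_eq_mul]
  rfl

theorem G_add (t t' : (Fin n → ι) → K) (ξ : Fin n → ι → K) : G (t + t') ξ = G t ξ + G t' ξ := by
  rw [G_apply, G_apply, G_apply, ← Finset.sum_add_distrib]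
  refine Finset.sum_congr rfl fun i _ => ?_
  rw [Pi.add_apply, add_mul]

theorem G_smul (c : K) (t : (Fin n → ι) → K) (ξ : Fin n → ι → K) : G (c • t) ξ = c * G t ξ := by
  rw [G_apply, G_apply, Finset.mul_sum]
  refine Finset.sum_congr rfl fun i _ => ?_
  rw [Pi.smul_apply, smul_eq_mul, mul_assoc]

theorem G_single (t : (Fin n → ι) → K) (i : Fin n → ι) :
    G t (fun k => Pi.single (i k) 1) = t i := by
  rw [G_apply, Finset.sum_eq_single i]
  · rw [Finset.prod_eq_one fun k _ => by rw [Pi.single_eq_same], mul_one]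
  · intro j _ hj
    obtain ⟨k, hk⟩ := Function.ne_iff.1 hj
    rw [Finset.prod_eq_zero (Finset.mem_univ k) (by rw [Pi.single_eq_of_ne hk]), mul_zero]
  · intro h
    exact absurd (Finset.mem_univ i) h

theorem G_inj {t t' : (Fin n → ι) → K} (h : ∀ ξ, G t ξ = G t' ξ) : t = t' := by
  funext i
  rw [← G_single t, h, G_single]

theorem G_tens (y : Fin n → Matrix ι ι K) (t : (Fin n → ι) → K) (ξ : Fin n → ι → K) :
    G (tens y *ᵥ t) ξ = G t (fun k => ξ k ᵥ* y k) := by
  rw [G_apply, G_apply]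
  have h1 : ∀ j : Fin n → ι, t j * ∏ k, (ξ k ᵥ* y k) (j k) =
      ∑ i : Fin n → ι, t j * ∏ k, (ξ k (i k) * y k (i k) (j k)) := by
    intro j
    rw [← Finset.mul_sum]
    congr 1
    have h2 := Finset.prod_univ_sum (κ := fun _ : Fin n => ι) (fun _ => Finset.univ)
      (fun k a => ξ k a * y k a (j k))
    rw [Fintype.piFinset_univ] at h2
    rw [← h2]
    rfl
  rw [Finset.sum_congr rfl fun j _ => h1 j, Finset.sum_comm]
  refine Finset.sum_congr rfl fun i _ => ?_
  rw [Matrix.mulVec, dotProduct, Finset.sum_mul]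
  refine Finset.sum_congr rfl fun j _ => ?_
  rw [tens_apply, Finset.prod_mul_distrib]
  ring

theorem G_slot (k : Fin n) (x : Matrix ι ι K) (t : (Fin n → ι) → K) (ξ : Fin n → ι → K) :
    G (slot k x *ᵥ t) ξ = G t (Function.update ξ k (ξ k ᵥ* x)) := by
  rw [slot_apply, G_tens]
  congr 1
  funext l
  by_cases h : l = k
  · subst h
    simp
  · rw [Function.update_of_ne h, Function.update_of_ne h]
    exact Matrix.vecMul_one _

theorem G_Dn (x : Matrix ι ι K) (t : (Fin n → ι) → K) (ξ : Fin n → ι → K) :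
    G (Dn n x *ᵥ t) ξ = ∑ k, G t (Function.update ξ k (ξ k ᵥ* x)) := by
  rw [Dn_apply, Matrix.sum_mulVec]
  have h : ∀ s : Finset (Fin n), G (∑ k ∈ s, slot k x *ᵥ t) ξ = ∑ k ∈ s, G (slot k x *ᵥ t) ξ := by
    intro s
    induction s using Finset.induction_on with
    | empty =>
      rw [Finset.sum_empty, Finset.sum_empty]
      have := G_smul (0 : K) (0 : (Fin n → ι) → K) ξ
      rw [zero_smul, zero_mul] at this
      exact this
    | insert a s ha ih => rw [Finset.sum_insert ha, Finset.sum_insert ha, G_add, ih]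
  rw [h]
  exact Finset.sum_congr rfl fun k _ => G_slot k x t ξ

/-- The alternating tensors. -/
def AltS (K ι : Type) [Field K] (n : ℕ) : Submodule K ((Fin n → ι) → K) where
  carrier := {t | ∀ (σ : Equiv.Perm (Fin n)) (i : Fin n → ι),
    t (i ∘ σ) = ((Equiv.Perm.sign σ : ℤ) : K) * t i}
  zero_mem' := fun σ i => by rw [Pi.zero_apply, Pi.zero_apply, mul_zero]
  add_mem' := fun {a b} ha hb σ i => by
    rw [Pi.add_apply, Pi.add_apply, ha, hb, mul_add]
  smul_mem' := fun c a ha σ i => by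
    rw [Pi.smul_apply, Pi.smul_apply, ha, smul_eq_mul, smul_eq_mul]
    ring

theorem mem_AltS {t : (Fin n → ι) → K} : t ∈ AltS K ι n ↔
    ∀ (σ : Equiv.Perm (Fin n)) (i : Fin n → ι),
      t (i ∘ σ) = ((Equiv.Perm.sign σ : ℤ) : K) * t i := Iff.rfl

theorem Dn_AltS (x : Matrix ι ι K) {t : (Fin n → ι) → K} (ht : t ∈ AltS K ι n) :
    Dn n x *ᵥ t ∈ AltS K ι n := by
  intro σ i
  rw [Matrix.mulVec, dotProduct, Matrix.mulVec, dotProduct, Finset.mul_sum,
    ← Equiv.sum_comp (Equiv.arrowCongr σ.symm (Equiv.refl ι))]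
  refine Finset.sum_congr rfl fun j _ => ?_
  have h1 : (Equiv.arrowCongr σ.symm (Equiv.refl ι)) j = j ∘ σ := by
    funext k
    simp [Equiv.arrowCongr]
  rw [h1, Dn_perm, ht]
  ring

theorem G_perm {t : (Fin n → ι) → K} (ht : t ∈ AltS K ι n) (σ : Equiv.Perm (Fin n))
    (ξ : Fin n → ι → K) : G t (fun k => ξ (σ k)) = ((Equiv.Perm.sign σ : ℤ) : K) * G t ξ := by
  rw [G_apply, G_apply, Finset.mul_sum,
    ← Equiv.sum_comp (Equiv.arrowCongr σ.symm (Equiv.refl ι))
      (fun i => t i * ∏ k, ξ (σ k) (i k))]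
  refine Finset.sum_congr rfl fun i _ => ?_
  have h1 : (Equiv.arrowCongr σ.symm (Equiv.refl ι)) i = i ∘ σ := by
    funext k
    simp [Equiv.arrowCongr]
  rw [h1, ht, mul_assoc]
  congr 2
  exact Equiv.prod_comp σ (fun k => ξ k (i k))

theorem G_eq_zero [CharZero K] {t : (Fin n → ι) → K} (ht : t ∈ AltS K ι n) (ξ : Fin n → ι → K)
    {a b : Fin n} (hab : ξ a = ξ b) (hne : a ≠ b) : G t ξ = 0 := by
  have h1 := G_perm ht (Equiv.swap a b) ξ
  have h2 : (fun k => ξ (Equiv.swap a b k)) = ξ := by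
    funext k
    by_cases hka : k = a
    · rw [hka, Equiv.swap_apply_left, hab]
    · by_cases hkb : k = b
      · rw [hkb, Equiv.swap_apply_right, hab]
      · rw [Equiv.swap_apply_of_ne_of_ne hka hkb]
  have h5 : (((-1 : ℤˣ) : ℤ) : K) = -1 := by simp
  rw [h2, Equiv.Perm.sign_swap hne, h5] at h1
  have h4 : (2 : K) * G t ξ = 0 := by linear_combination h1
  exact (mul_eq_zero.1 h4).resolve_left two_ne_zero

/-- The alternating form given by an alternating tensor. -/
def AG [CharZero K] (t : (Fin n → ι) → K) (ht : t ∈ AltS K ι n) :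
    (ι → K) [⋀^Fin n]→ₗ[K] K :=
  { G t with
    map_eq_zero_of_eq' := fun ξ _ _ hab hne => G_eq_zero ht ξ hab hne }

theorem AG_apply [CharZero K] (t : (Fin n → ι) → K) (ht : t ∈ AltS K ι n) (ξ : Fin n → ι → K) :
    AG t ht ξ = G t ξ := rfl

section

variable [CharZero K] (A : Matrix ι (Fin n) K) (B : Matrix (Fin n) ι K)

theorem G_update {t : (Fin n → ι) → K} (ht : t ∈ AltS K ι n) (a : Fin n) (ζ : ι → K) :
    G t (Function.update (fun k => B k) a (ζ ᵥ* (A * B))) =
      (ζ ᵥ* A) a * G t (fun k => B k) := by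
  rw [← Matrix.vecMul_vecMul, Matrix.vecMul_eq_sum (ζ ᵥ* A) B, MultilinearMap.map_update_sum,
    Finset.sum_eq_single a]
  · rw [MultilinearMap.map_update_smul, smul_eq_mul]
    rw [show Function.update (fun k => B k) a (B a) = fun k => B k from
      Function.update_eq_self a (fun k => B k)]
  · intro b _ hb
    rw [MultilinearMap.map_update_smul]
    rw [G_eq_zero ht _ (a := a) (b := b) (by
      rw [Function.update_self, Function.update_of_ne hb]) hb.symm, smul_zero]
  · intro h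
    exact absurd (Finset.mem_univ a) h

theorem G_eq_det {t : (Fin n → ι) → K} (ht : t ∈ AltS K ι n)
    (h : ∀ ξ, G t ξ = G t (fun k => ξ k ᵥ* (A * B))) (ξ : Fin n → ι → K) :
    G t ξ = G t (fun k => B k) * Matrix.det (Matrix.of fun k => ξ k ᵥ* A) := by
  let f : (Fin n → K) [⋀^Fin n]→ₗ[K] K := (AG t ht).compLinearMap (Matrix.vecMulLinear B)
  have hf : ∀ η : Fin n → Fin n → K, f η = G t (fun k => η k ᵥ* B) := fun η => rfl
  have h1 := AlternatingMap.eq_smul_basis_det (Pi.basisFun K (Fin n)) f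
  have h2 := congrArg (fun F : (Fin n → K) [⋀^Fin n]→ₗ[K] K => F (fun k => ξ k ᵥ* A)) h1
  simp only [AlternatingMap.smul_apply, Pi.basisFun_det_apply, smul_eq_mul] at h2
  rw [hf, hf] at h2
  rw [h]
  have h3 : (fun k => ξ k ᵥ* (A * B)) = fun k => (ξ k ᵥ* A) ᵥ* B := by
    funext k
    rw [Matrix.vecMul_vecMul]
  rw [h3, h2]
  congr 2
  funext k
  rw [Pi.basisFun_apply, Matrix.single_one_vecMul]
  rfl

/-- The decomposable alternating tensor given by the columns of `A`. -/
def uu : (Fin n → ι) → K := fun i => Matrix.det (Matrix.of fun a b => A (i a) b)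

theorem uu_AltS : uu A ∈ AltS K ι n := by
  intro σ i
  have h := Matrix.det_permute σ (Matrix.of fun a b => A (i a) b)
  exact h

theorem G_uu (ξ : Fin n → ι → K) : G (uu A) ξ = Matrix.det (Matrix.of fun k => ξ k ᵥ* A) := by
  have h1 : (Matrix.of fun k => ξ k ᵥ* A) = fun k => ∑ i, ξ k i • A i := by
    funext k
    exact Matrix.vecMul_eq_sum _ _
  have h2 : Matrix.det (Matrix.of fun k => ξ k ᵥ* A) =
      (Matrix.detRowAlternating (n := Fin n) (R := K)).toMultilinearMap
        (fun k => ∑ i, ξ k i • A i) := by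
    rw [h1]
    rfl
  rw [h2, MultilinearMap.map_sum, G_apply]
  refine Finset.sum_congr rfl fun i _ => ?_
  rw [MultilinearMap.map_smul_univ, smul_eq_mul, mul_comm]
  rfl

/-- The contraction. -/
def Lam : ((Fin n → ι) → K) →ₗ[K] Matrix ι ι K where
  toFun t := Matrix.of fun r s => ∑ a, G t (Function.update (fun k => B k) a
    ((1 - A * B : Matrix ι ι K) r)) * B a s
  map_add' t t' := by
    ext r s
    rw [Matrix.add_apply, Matrix.of_apply, Matrix.of_apply, Matrix.of_apply,
      ← Finset.sum_add_distrib]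
    refine Finset.sum_congr rfl fun a _ => ?_
    rw [G_add, add_mul]
  map_smul' c t := by
    ext r s
    rw [Matrix.smul_apply, Matrix.of_apply, Matrix.of_apply, smul_eq_mul, Finset.mul_sum]
    refine Finset.sum_congr rfl fun a _ => ?_
    rw [G_smul, RingHom.id_apply, mul_assoc]

theorem Lam_apply (t : (Fin n → ι) → K) (r s : ι) : Lam A B t r s =
    ∑ a, G t (Function.update (fun k => B k) a ((1 - A * B : Matrix ι ι K) r)) * B a s := rfl

variable {A B} (hBA : B * A = 1)

include hBA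

theorem Lam_Dn {t : (Fin n → ι) → K} (ht : t ∈ AltS K ι n) {y : Matrix ι ι K}
    (hy : (1 - A * B) * y * (A * B) = y) :
    Lam A B (Dn n y *ᵥ t) = G t (fun k => B k) • y := by
  have hB0 : B * (1 - A * B) = 0 := by
    rw [Matrix.mul_sub, Matrix.mul_one, ← Matrix.mul_assoc, hBA, Matrix.one_mul, sub_self]
  have hB : B * y = 0 := by
    have h1 : B * ((1 - A * B) * y * (A * B)) = B * (1 - A * B) * y * (A * B) := by
      simp only [Matrix.mul_assoc]
    rw [← hy, h1, hB0, Matrix.zero_mul, Matrix.zero_mul]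
  have hy1 : (1 - A * B) * y = y := by
    rw [Matrix.sub_mul, Matrix.one_mul, Matrix.mul_assoc, hB, Matrix.mul_zero, sub_zero]
  have hy2 : y * (A * B) = y := by
    conv_lhs => rw [← hy1]
    exact hy
  ext r s
  rw [Lam_apply, Matrix.smul_apply]
  have h1 : ∀ a : Fin n, G (Dn n y *ᵥ t)
      (Function.update (fun k => B k) a ((1 - A * B : Matrix ι ι K) r)) =
      (y * A) r a * G t (fun k => B k) := by
    intro a
    rw [G_Dn, Finset.sum_eq_single a]
    · rw [Function.update_self, Function.update_idem]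
      have h2 : (1 - A * B : Matrix ι ι K) r ᵥ* y = y r := by
        have h3 : (1 - A * B : Matrix ι ι K) r ᵥ* y = ((1 - A * B) * y : Matrix ι ι K) r := rfl
        rw [h3, hy1]
      rw [h2]
      have h4 : y r = y r ᵥ* (A * B) := by
        have h5 : y r ᵥ* (A * B) = (y * (A * B)) r := rfl
        rw [h5, hy2]
      have h6 := G_update A B ht a (y r)
      rw [← h4] at h6
      rw [h6]
      rfl
    · intro k _ hk
      rw [Function.update_of_ne hk]
      have h2 : B k ᵥ* y = 0 := by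
        have h3 : B k ᵥ* y = (B * y) k := rfl
        rw [h3, hB]
        rfl
      rw [h2]
      exact MultilinearMap.map_coord_zero _ k (Function.update_self _ _ _)
    · intro h
      exact absurd (Finset.mem_univ a) h
  rw [Finset.sum_congr rfl fun a _ => by rw [h1 a]]
  have h6 : y r s = ∑ a, (y * A) r a * B a s := by
    rw [← Matrix.mul_apply, Matrix.mul_assoc, hy2]
  rw [h6, smul_eq_mul, Finset.mul_sum]
  refine Finset.sum_congr rfl fun a _ => ?_
  ring

theorem Lam_uu : Lam A B (uu A) = 0 := by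
  ext r s
  rw [Lam_apply, Matrix.zero_apply]
  refine Finset.sum_eq_zero fun a _ => ?_
  rw [G_uu, Matrix.det_eq_zero_of_row_eq_zero a, zero_mul]
  intro b
  rw [Matrix.of_apply, Function.update_self]
  have h1 : (1 - A * B : Matrix ι ι K) r ᵥ* A = ((1 - A * B) * A : Matrix ι (Fin n) K) r := rfl
  rw [h1, Matrix.sub_mul, Matrix.one_mul, Matrix.mul_assoc, hBA, Matrix.mul_one, sub_self]
  rfl

theorem G_uu_B : G (uu A) (fun k => B k) = 1 := by
  rw [G_uu]
  have h1 : (Matrix.of fun k => B k ᵥ* A) = B * A := rfl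
  rw [h1, hBA, Matrix.det_one]

/-- A matrix that preserves the span of the columns of `A` multiplies `uu A` by a scalar. -/
theorem Dn_uu {z : Matrix ι ι K} (hz : (1 - A * B) * z * (A * B) = 0) :
    ∃ c : K, Dn n z *ᵥ uu A = c • uu A := by
  have hz1 : A * B * (z * A) = z * A := by
    have h1 : (1 - A * B) * z * (A * B) * A = 0 := by rw [hz, Matrix.zero_mul]
    rw [Matrix.mul_assoc, Matrix.mul_assoc A, hBA, Matrix.mul_one, Matrix.mul_assoc,
      Matrix.sub_mul, Matrix.one_mul, sub_eq_zero] at h1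
    exact h1.symm
  have hA1 : A * B * A = A := by rw [Matrix.mul_assoc, hBA, Matrix.mul_one]
  have hG : ∀ ξ : Fin n → ι → K, G (Dn n z *ᵥ uu A) ξ =
      ∑ k, Matrix.det (Matrix.of fun l => Function.update (fun l => ξ l ᵥ* A) k
        (ξ k ᵥ* (z * A)) l) := by
    intro ξ
    rw [G_Dn]
    refine Finset.sum_congr rfl fun k _ => ?_
    rw [G_uu]
    congr 2
    funext l
    by_cases h : l = k
    · subst h
      rw [Function.update_self, Function.update_self, Matrix.vecMul_vecMul]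
    · rw [Function.update_of_ne h, Function.update_of_ne h]
  have h1 := G_eq_det A B (Dn_AltS z (uu_AltS A)) (by
    intro ξ
    rw [hG, hG]
    refine Finset.sum_congr rfl fun k _ => ?_
    congr 2
    funext l
    by_cases h : l = k
    · subst h
      rw [Function.update_self, Function.update_self, Matrix.vecMul_vecMul, hz1]
    · rw [Function.update_of_ne h, Function.update_of_ne h, Matrix.vecMul_vecMul, hA1])
  refine ⟨G (Dn n z *ᵥ uu A) (fun k => B k), G_inj fun ξ => ?_⟩
  rw [h1, G_smul, G_uu]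

/-- The highest weight step. -/
theorem hw (𝔤 : Submodule K (Matrix ι ι K))
    (hq : ∀ z ∈ 𝔤, (A * B) * z - z * (A * B) ∈ 𝔤)
    (hbr : ∀ x ∈ 𝔤, ∀ y ∈ 𝔤, x * y - y * x ∈ 𝔤) (X : Matrix ι ι K)
    (hX : ∀ S : Submodule K ((Fin n → ι) → K), S ≤ AltS K ι n →
      (∀ z ∈ 𝔤, ∀ t ∈ S, Dn n z *ᵥ t ∈ S) → ∀ t ∈ S, Dn n X *ᵥ t ∈ S) :
    (1 - A * B) * X * (A * B) ∈ 𝔤 := by
  obtain ⟨q, hqdef⟩ : ∃ q : Matrix ι ι K, q = A * B := ⟨_, rfl⟩
  rw [← hqdef] at hq ⊢
  have hqq : q * q = q := by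
    rw [hqdef, Matrix.mul_assoc, ← Matrix.mul_assoc B, hBA, Matrix.one_mul]
  let Good : Submodule K ((Fin n → ι) → K) → Prop := fun S =>
    uu A ∈ S ∧ ∀ y ∈ 𝔤, (1 - q) * y * q = y → ∀ t ∈ S, Dn n y *ᵥ t ∈ S
  let T0 : Submodule K ((Fin n → ι) → K) := sInf {S | Good S}
  have hmin : ∀ S, Good S → T0 ≤ S := fun S hS => sInf_le hS
  have hgood : Good T0 := by
    refine ⟨?_, ?_⟩
    · rw [Submodule.mem_sInf]
      exact fun S hS => hS.1
    · intro y hy hy' t ht
      rw [Submodule.mem_sInf] at ht ⊢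
      exact fun S hS => hS.2 y hy hy' t (ht S hS)
  -- the negative part of an element of `𝔤`
  have hneg : ∀ z ∈ 𝔤, (1 - q) * z * q ∈ 𝔤 := by
    intro z hz
    have h1 := hq z hz
    have h2 := hq _ h1
    have h3 : (1 - q) * z * q = (1 / 2 : K) • ((q * (q * z - z * q) - (q * z - z * q) * q) -
        (q * z - z * q)) := by
      have h4 : (q * (q * z - z * q) - (q * z - z * q) * q) - (q * z - z * q) =
          (2 : K) • ((1 - q) * z * q) := by
        rw [two_smul]
        have e1 : q * (q * z - z * q) = q * z - q * z * q := by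
          rw [Matrix.mul_sub, ← Matrix.mul_assoc, hqq, ← Matrix.mul_assoc]
        have e2 : (q * z - z * q) * q = q * z * q - z * q := by
          rw [Matrix.sub_mul, Matrix.mul_assoc z, hqq]
        rw [e1, e2, Matrix.sub_mul, Matrix.sub_mul, Matrix.one_mul]
        abel
      rw [h4, smul_smul, one_div, inv_mul_cancel₀ two_ne_zero, one_smul]
    rw [h3]
    exact 𝔤.smul_mem _ (𝔤.sub_mem h2 h1)
  have hqq1 : (1 - q) * (1 - q) = 1 - q := by
    rw [Matrix.mul_sub, Matrix.mul_one, Matrix.sub_mul, Matrix.one_mul, hqq, sub_self, sub_zero]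
  have hneg' : ∀ z : Matrix ι ι K, (1 - q) * ((1 - q) * z * q) * q = (1 - q) * z * q := by
    intro z
    rw [← Matrix.mul_assoc, ← Matrix.mul_assoc, hqq1, Matrix.mul_assoc ((1 - q) * z), hqq]
  have hdec : ∀ z : Matrix ι ι K, ∃ c : K, Dn n z *ᵥ uu A =
      Dn n ((1 - q) * z * q) *ᵥ uu A + c • uu A := by
    intro z
    obtain ⟨c, hc⟩ := Dn_uu (A := A) (B := B) hBA (z := z - (1 - q) * z * q) (by
      rw [← hqdef, Matrix.mul_sub, Matrix.sub_mul, hneg', sub_self])
    refine ⟨c, ?_⟩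
    rw [← hc, map_sub, Matrix.sub_mulVec]
    abel
  -- stability
  have hst : ∀ z ∈ 𝔤, ∀ t ∈ T0, Dn n z *ᵥ t ∈ T0 := by
    let S : Submodule K ((Fin n → ι) → K) :=
      { carrier := {t | t ∈ T0 ∧ ∀ z ∈ 𝔤, Dn n z *ᵥ t ∈ T0}
        zero_mem' := ⟨T0.zero_mem, fun z _ => by rw [Matrix.mulVec_zero]; exact T0.zero_mem⟩
        add_mem' := fun {a b} ha hb => ⟨T0.add_mem ha.1 hb.1, fun z hz => by
          rw [Matrix.mulVec_add]
          exact T0.add_mem (ha.2 z hz) (hb.2 z hz)⟩
        smul_mem' := fun c a ha => ⟨T0.smul_mem c ha.1, fun z hz => by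
          rw [Matrix.mulVec_smul]
          exact T0.smul_mem c (ha.2 z hz)⟩ }
    have hS : Good S := by
      refine ⟨⟨hgood.1, fun z hz => ?_⟩, fun y hy hy' t ht => ⟨hgood.2 y hy hy' t ht.1,
        fun z hz => ?_⟩⟩
      · obtain ⟨c, hc⟩ := hdec z
        rw [hc]
        exact T0.add_mem (hgood.2 _ (hneg z hz) (hneg' z) _ hgood.1) (T0.smul_mem _ hgood.1)
      · have h1 : Dn n z * Dn n y = Dn n y * Dn n z + Dn n (z * y - y * z) := by
          rw [Dn_br]
          abel
        rw [Matrix.mulVec_mulVec, h1, Matrix.add_mulVec, ← Matrix.mulVec_mulVec]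
        exact T0.add_mem (hgood.2 y hy hy' _ (ht.2 z hz)) (ht.2 _ (hbr z hz y hy))
    intro z hz t ht
    exact (hmin S hS ht).2 z hz
  have halt : T0 ≤ AltS K ι n := hmin _ ⟨uu_AltS A, fun y _ _ t ht => Dn_AltS y ht⟩
  have hLam : T0 ≤ AltS K ι n ⊓ 𝔤.comap (Lam A B) := by
    refine hmin _ ⟨⟨uu_AltS A, ?_⟩, fun y hy hy' t ht => ⟨Dn_AltS y ht.1, ?_⟩⟩
    · show Lam A B (uu A) ∈ 𝔤
      rw [Lam_uu hBA]
      exact 𝔤.zero_mem
    · show Lam A B (Dn n y *ᵥ t) ∈ 𝔤
      rw [Lam_Dn hBA ht.1 (hqdef ▸ hy')]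
      exact 𝔤.smul_mem _ hy
  have h1 := hX T0 halt hst _ hgood.1
  have h2 : Lam A B (Dn n X *ᵥ uu A) ∈ 𝔤 := (hLam h1).2
  obtain ⟨c, hc⟩ := hdec X
  rw [hc, map_add, map_smul, Lam_uu hBA, smul_zero, add_zero, Lam_Dn hBA (uu_AltS A) (hqdef ▸ hneg' X),
    G_uu_B hBA, one_smul] at h2
  exact h2

end

end

end Pool.Agent.L5helper27.MM
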