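import Mathlib
import Pool.Agent.L5helper27.MM.CR
import Pool.Agent.L5helper27.MM.HW

/-!
# The Lie algebra generated by the weak Hodge cocharacters
-/

set_option linter.unusedSectionVars false

open Module Matrix

namespace Pool.Agent.L5helper27.MM

noncomputable section

section rank

variable {K : Type} [Field K] [CharZero K] {ι : Type} [Fintype ι] [DecidableEq ι] {n : ℕ}

/-- Rank factorization of an idempotent matrix of trace `n`. -/
theorem exists_factor {p : Matrix ι ι K} (hp : p * p = p) (htr : p.trace = (n : K)) :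
    ∃ (A : Matrix ι (Fin n) K) (B : Matrix (Fin n) ι K), B * A = 1 ∧ A * B = p := by
  let f : End K (ι → K) := Matrix.toLin' p
  have hf : IsIdempotentElem f := by
    show f * f = f
    rw [Module.End.mul_eq_comp, ← Matrix.toLin'_mul, hp]
  have hproj := LinearMap.IsIdempotentElem.isProj_range f hf
  have h1 := hproj.trace
  have h2 : LinearMap.trace K (ι → K) f = p.trace := Matrix.trace_toLin'_eq p
  rw [h2, htr] at h1
  have h3 : finrank K (LinearMap.range f) = n := (Nat.cast_injective h1).symm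
  let b := finBasisOfFinrankEq K (LinearMap.range f) h3
  have hfr : ∀ v, f v ∈ LinearMap.range f := fun v => ⟨v, rfl⟩
  let g : (ι → K) →ₗ[K] LinearMap.range f := f.rangeRestrict
  have hg : ∀ v, (g v : ι → K) = f v := fun v => rfl
  have hgb : ∀ a, g (b a : ι → K) = b a := by
    intro a
    apply Subtype.ext
    rw [hg]
    exact hproj.map_id _ (b a).2
  refine ⟨Matrix.of fun i a => (b a : ι → K) i, Matrix.of fun a i => b.repr (g (Pi.single i 1)) a,
    ?_, ?_⟩
  · ext a c
    rw [Matrix.mul_apply]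
    have h4 : (b c : ι → K) = ∑ i, (b c : ι → K) i • (Pi.single i 1 : ι → K) := by
      funext k
      rw [Finset.sum_apply, Finset.sum_eq_single k]
      · rw [Pi.smul_apply, Pi.single_eq_same, smul_eq_mul, mul_one]
      · intro j _ hj
        rw [Pi.smul_apply, Pi.single_eq_of_ne hj.symm, smul_zero]
      · intro h
        exact absurd (Finset.mem_univ k) h
    have h5 : b.repr (g (b c : ι → K)) a = ∑ i, b.repr (g (Pi.single i 1)) a * (b c : ι → K) i := by
      conv_lhs => rw [h4]
      rw [map_sum, map_sum, Finsupp.finsetSum_apply]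
      refine Finset.sum_congr rfl fun i _ => ?_
      rw [map_smul, map_smul, Finsupp.smul_apply, smul_eq_mul, mul_comm]
    simp only [Matrix.of_apply]
    rw [← h5, hgb, Basis.repr_self, Finsupp.single_apply, Matrix.one_apply]
    congr 1
    exact propext eq_comm
  · ext i j
    rw [Matrix.mul_apply]
    simp only [Matrix.of_apply]
    have h4 := b.sum_repr (g (Pi.single j 1))
    have h5 : ((∑ a, b.repr (g (Pi.single j 1)) a • b a : LinearMap.range f) : ι → K) i =
        (g (Pi.single j 1) : ι → K) i := congrArg (fun w : LinearMap.range f => (w : ι → K) i) h4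
    have h6 : (g (Pi.single j 1) : ι → K) i = p i j := by
      show Matrix.toLin' p (Pi.single j 1) i = p i j
      rw [Matrix.toLin'_apply, Matrix.mulVec_single_one]
      rfl
    rw [h6] at h5
    rw [← h5, AddSubmonoidClass.coe_finset_sum, Finset.sum_apply]
    refine Finset.sum_congr rfl fun a _ => ?_
    rw [Submodule.coe_smul, Pi.smul_apply, smul_eq_mul, mul_comm]

/-- The trace of a weak Hodge idempotent. -/
theorem trace_wh (hcard : Fintype.card ι = 2 * n) {ψ : Matrix ι ι K} (hψ : IsUnit ψ)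
    {p : Matrix ι ι K} (h : p.transpose * ψ + ψ * p = ψ) : p.trace = (n : K) := by
  obtain ⟨u, rfl⟩ := hψ
  set w : Matrix ι ι K := ((u⁻¹ : (Matrix ι ι K)ˣ) : Matrix ι ι K) with hw
  have h1 : w * (u : Matrix ι ι K) = 1 := by rw [hw]; exact u.inv_mul
  have h2 : (u : Matrix ι ι K) * w = 1 := by rw [hw]; exact u.mul_inv
  have h3 : p = 1 - w * p.transpose * u := by
    have h4 : w * (p.transpose * u + u * p) = 1 := by rw [h, h1]
    rw [Matrix.mul_add, ← Matrix.mul_assoc, ← Matrix.mul_assoc, h1, Matrix.one_mul] at h4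
    rw [← h4]
    abel
  have h5 : p.trace = (Fintype.card ι : K) - p.trace := by
    conv_lhs => rw [h3]
    rw [Matrix.trace_sub, Matrix.trace_one, Matrix.trace_mul_comm, ← Matrix.mul_assoc, h2,
      Matrix.one_mul, Matrix.trace_transpose]
  rw [hcard] at h5
  push_cast at h5
  have h6 : (2 : K) * p.trace = 2 * n := by linear_combination h5
  exact mul_left_cancel₀ two_ne_zero h6

end rank

section alt

variable {K : Type} [Field K] [CharZero K] {ι : Type} [Fintype ι] [DecidableEq ι] {n : ℕ}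

/-- The alternation of a matrix in the columns. -/
def altc (P : Matrix (Fin n → ι) (Fin n → ι) K) : Matrix (Fin n → ι) (Fin n → ι) K :=
  Matrix.of fun i j => ((n.factorial : K))⁻¹ * ∑ σ : Equiv.Perm (Fin n),
    ((Equiv.Perm.sign σ : ℤ) : K) * P i (j ∘ σ)

theorem altc_apply (P : Matrix (Fin n → ι) (Fin n → ι) K) (i j : Fin n → ι) :
    altc P i j = ((n.factorial : K))⁻¹ * ∑ σ : Equiv.Perm (Fin n),
      ((Equiv.Perm.sign σ : ℤ) : K) * P i (j ∘ σ) := rfl

theorem altc_AltM {P : Matrix (Fin n → ι) (Fin n → ι) K}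
    (hP : ∀ (σ : Equiv.Perm (Fin n)) (i j : Fin n → ι),
      P (i ∘ σ) j = ((Equiv.Perm.sign σ : ℤ) : K) * P i j) : AltM (altc P) := by
  intro τ i j
  constructor
  · rw [altc_apply, altc_apply, mul_left_comm]
    congr 1
    rw [Finset.mul_sum]
    refine Finset.sum_congr rfl fun σ _ => ?_
    rw [hP]
    ring
  · rw [altc_apply, altc_apply, mul_left_comm]
    congr 1
    rw [Finset.mul_sum, ← Equiv.sum_comp (Equiv.mulLeft τ)
      (fun σ => ((Equiv.Perm.sign τ : ℤ) : K) * (((Equiv.Perm.sign σ : ℤ) : K) * P i (j ∘ σ)))]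
    refine Finset.sum_congr rfl fun σ _ => ?_
    rw [Equiv.coe_mulLeft, Equiv.Perm.sign_mul]
    have h1 : ((Equiv.Perm.sign τ : ℤ) : K) * ((Equiv.Perm.sign τ : ℤ) : K) = 1 := by
      rw [← Int.cast_mul, ← Units.val_mul, Int.units_mul_self]
      simp
    have h2 : (j ∘ ⇑(τ * σ)) = (j ∘ τ) ∘ σ := rfl
    rw [h2]
    push_cast
    linear_combination (-(((Equiv.Perm.sign σ : ℤ) : K) * P i ((j ∘ τ) ∘ σ))) * h1

theorem altc_comm {P : Matrix (Fin n → ι) (Fin n → ι) K} {x : Matrix ι ι K}
    (h : P * Dn n x = Dn n x * P) : altc P * Dn n x = Dn n x * altc P := by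
  ext i j
  rw [Matrix.mul_apply, Matrix.mul_apply]
  have h1 : ∑ l, altc P i l * Dn n x l j = ((n.factorial : K))⁻¹ * ∑ σ : Equiv.Perm (Fin n),
      ((Equiv.Perm.sign σ : ℤ) : K) * (P * Dn n x) i (j ∘ σ) := by
    simp only [altc_apply]
    rw [Finset.mul_sum]
    have h2 : ∀ l, ((n.factorial : K)⁻¹ * ∑ σ : Equiv.Perm (Fin n),
        ((Equiv.Perm.sign σ : ℤ) : K) * P i (l ∘ σ)) * Dn n x l j =
        ∑ σ : Equiv.Perm (Fin n), (n.factorial : K)⁻¹ * (((Equiv.Perm.sign σ : ℤ) : K) *
          (P i (l ∘ σ) * Dn n x l j)) := by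
      intro l
      rw [Finset.mul_sum, Finset.sum_mul]
      refine Finset.sum_congr rfl fun σ _ => ?_
      ring
    rw [Finset.sum_congr rfl fun l _ => h2 l, Finset.sum_comm]
    refine Finset.sum_congr rfl fun σ _ => ?_
    rw [← Finset.mul_sum, ← Finset.mul_sum]
    congr 2
    rw [Matrix.mul_apply, ← Equiv.sum_comp (Equiv.arrowCongr σ.symm (Equiv.refl ι))
      (fun l => P i l * Dn n x l (j ∘ σ))]
    refine Finset.sum_congr rfl fun l _ => ?_
    have h3 : (Equiv.arrowCongr σ.symm (Equiv.refl ι)) l = l ∘ σ := by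
      funext k
      simp [Equiv.arrowCongr]
    rw [h3, Dn_perm]
  rw [h1, h]
  have h4 : ∀ σ : Equiv.Perm (Fin n), (Dn n x * P) i (j ∘ σ) =
      ∑ l, Dn n x i l * P l (j ∘ σ) := fun σ => Matrix.mul_apply
  rw [Finset.sum_congr rfl fun σ _ => by rw [h4 σ, Finset.mul_sum], Finset.sum_comm,
    Finset.mul_sum]
  refine Finset.sum_congr rfl fun l _ => ?_
  rw [altc_apply, Finset.mul_sum, Finset.mul_sum, Finset.mul_sum]
  refine Finset.sum_congr rfl fun σ _ => ?_
  ring

theorem altc_mulVec (P : Matrix (Fin n → ι) (Fin n → ι) K) (t : (Fin n → ι) → K)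
    (ht : t ∈ AltS K ι n) : altc P *ᵥ t = P *ᵥ t := by
  funext i
  rw [Matrix.mulVec, dotProduct, Matrix.mulVec, dotProduct]
  have hn : (n.factorial : K) ≠ 0 := Nat.cast_ne_zero.2 n.factorial_ne_zero
  have h2 : ∀ l, altc P i l * t l =
      ∑ σ : Equiv.Perm (Fin n), (n.factorial : K)⁻¹ * (((Equiv.Perm.sign σ : ℤ) : K) *
        (P i (l ∘ σ) * t l)) := by
    intro l
    rw [altc_apply, Finset.mul_sum, Finset.sum_mul]
    refine Finset.sum_congr rfl fun σ _ => ?_
    ring
  rw [Finset.sum_congr rfl fun l _ => h2 l, Finset.sum_comm]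
  have h3 : ∀ σ : Equiv.Perm (Fin n), ∑ l, (n.factorial : K)⁻¹ *
      (((Equiv.Perm.sign σ : ℤ) : K) * (P i (l ∘ σ) * t l)) =
      (n.factorial : K)⁻¹ * ∑ l, P i l * t l := by
    intro σ
    rw [← Finset.mul_sum]
    congr 1
    rw [← Equiv.sum_comp (Equiv.arrowCongr σ.symm (Equiv.refl ι)) (fun l => P i l * t l)]
    refine Finset.sum_congr rfl fun l _ => ?_
    have h4 : (Equiv.arrowCongr σ.symm (Equiv.refl ι)) l = l ∘ σ := by
      funext k
      simp [Equiv.arrowCongr]
    rw [h4, ht]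
    ring
  rw [Finset.sum_congr rfl fun σ _ => h3 σ, Finset.sum_const, Finset.card_univ,
    Fintype.card_perm, Fintype.card_fin, nsmul_eq_mul, ← mul_assoc, mul_inv_cancel₀ hn, one_mul]

theorem altc_range {P : Matrix (Fin n → ι) (Fin n → ι) K} {S : Submodule K ((Fin n → ι) → K)}
    (hP : ∀ t, P *ᵥ t ∈ S) (t : (Fin n → ι) → K) : altc P *ᵥ t ∈ S := by
  let t' : (Fin n → ι) → K := fun l => ((n.factorial : K))⁻¹ * ∑ σ : Equiv.Perm (Fin n),
    ((Equiv.Perm.sign σ : ℤ) : K) * t (l ∘ σ.symm)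
  have h1 : altc P *ᵥ t = P *ᵥ t' := by
    funext i
    rw [Matrix.mulVec, dotProduct, Matrix.mulVec, dotProduct]
    have h2 : ∀ l, altc P i l * t l =
        ∑ σ : Equiv.Perm (Fin n), (n.factorial : K)⁻¹ * (((Equiv.Perm.sign σ : ℤ) : K) *
          (P i (l ∘ σ) * t l)) := by
      intro l
      rw [altc_apply, Finset.mul_sum, Finset.sum_mul]
      refine Finset.sum_congr rfl fun σ _ => ?_
      ring
    have h3 : ∀ l, P i l * t' l =
        ∑ σ : Equiv.Perm (Fin n), (n.factorial : K)⁻¹ * (((Equiv.Perm.sign σ : ℤ) : K) *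
          (P i l * t (l ∘ σ.symm))) := by
      intro l
      show P i l * (((n.factorial : K))⁻¹ * ∑ σ : Equiv.Perm (Fin n),
        ((Equiv.Perm.sign σ : ℤ) : K) * t (l ∘ σ.symm)) = _
      rw [Finset.mul_sum, Finset.mul_sum]
      refine Finset.sum_congr rfl fun σ _ => ?_
      ring
    rw [Finset.sum_congr rfl fun l _ => h2 l, Finset.sum_congr rfl fun l _ => h3 l,
      Finset.sum_comm, Finset.sum_comm (f := fun l (σ : Equiv.Perm (Fin n)) =>
        (n.factorial : K)⁻¹ * (((Equiv.Perm.sign σ : ℤ) : K) * (P i l * t (l ∘ σ.symm))))]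
    refine Finset.sum_congr rfl fun σ _ => ?_
    rw [← Equiv.sum_comp (Equiv.arrowCongr σ.symm (Equiv.refl ι))
      (fun l => (n.factorial : K)⁻¹ * (((Equiv.Perm.sign σ : ℤ) : K) *
        (P i l * t (l ∘ σ.symm))))]
    refine Finset.sum_congr rfl fun l _ => ?_
    have h4 : (Equiv.arrowCongr σ.symm (Equiv.refl ι)) l = l ∘ σ := by
      funext k
      simp [Equiv.arrowCongr]
    have h5 : (l ∘ σ) ∘ σ.symm = l := by
      funext k
      simp
    rw [h4, h5]
  rw [h1]
  exact hP t'

end alt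

end

end Pool.Agent.L5helper27.MM
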