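import Mathlib
import Pool.Agent.L5helper27.MM.Core

/-!
# The core theorem on the Lie algebra generated by the weak Hodge cocharacters
-/

set_option linter.unusedSectionVars false

open Module Matrix

namespace Pool.Agent.L5helper27.MM

noncomputable section

section gen

variable {K : Type} [Field K] {ι : Type} [Fintype ι] [DecidableEq ι]

/-- The Lie algebra generated by a set of matrices. -/
def lieGen (W : Set (Matrix ι ι K)) : Submodule K (Matrix ι ι K) :=
  sInf {S | W ⊆ S ∧ ∀ x ∈ S, ∀ y ∈ S, x * y - y * x ∈ S}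

theorem subset_lieGen (W : Set (Matrix ι ι K)) {p : Matrix ι ι K} (hp : p ∈ W) :
    p ∈ lieGen W := by
  unfold lieGen
  rw [Submodule.mem_sInf]
  exact fun S hS => hS.1 hp

theorem lieGen_br (W : Set (Matrix ι ι K)) : ∀ x ∈ lieGen W, ∀ y ∈ lieGen W,
    x * y - y * x ∈ lieGen W := by
  intro x hx y hy
  unfold lieGen at *
  rw [Submodule.mem_sInf] at *
  exact fun S hS => hS.2 x (hx S hS) y (hy S hS)

theorem lieGen_le {W : Set (Matrix ι ι K)} {S : Submodule K (Matrix ι ι K)}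
    (h1 : ∀ p ∈ W, p ∈ S) (h2 : ∀ x ∈ S, ∀ y ∈ S, x * y - y * x ∈ S) : lieGen W ≤ S :=
  sInf_le ⟨h1, h2⟩

theorem lieGen_comm {W : Set (Matrix ι ι K)} {z : Matrix ι ι K} (hz : ∀ p ∈ W, z * p = p * z)
    {x : Matrix ι ι K} (hx : x ∈ lieGen W) : z * x = x * z := by
  let S : Submodule K (Matrix ι ι K) :=
    { carrier := {x | z * x = x * z}
      zero_mem' := by
        show z * 0 = 0 * z
        rw [mul_zero, zero_mul]
      add_mem' := fun {a b} (ha : z * a = a * z) (hb : z * b = b * z) => by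
        show z * (a + b) = (a + b) * z
        rw [mul_add, add_mul, ha, hb]
      smul_mem' := fun c a (ha : z * a = a * z) => by
        show z * (c • a) = (c • a) * z
        rw [mul_smul_comm, smul_mul_assoc, ha] }
  refine lieGen_le (S := S) hz ?_ hx
  intro a ha b hb
  have ha' : z * a = a * z := ha
  have hb' : z * b = b * z := hb
  show z * (a * b - b * a) = (a * b - b * a) * z
  rw [mul_sub, sub_mul, ← mul_assoc, ← mul_assoc, ha', hb', mul_assoc, mul_assoc, hb', ha',
    mul_assoc, mul_assoc]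

theorem lieGen_stable {W : Set (Matrix ι ι K)} {U : Submodule K (ι → K)}
    (hU : ∀ p ∈ W, ∀ u ∈ U, p *ᵥ u ∈ U) {x : Matrix ι ι K} (hx : x ∈ lieGen W) :
    ∀ u ∈ U, x *ᵥ u ∈ U := by
  let S : Submodule K (Matrix ι ι K) :=
    { carrier := {x | ∀ u ∈ U, x *ᵥ u ∈ U}
      zero_mem' := fun u _ => by
        rw [Matrix.zero_mulVec]
        exact U.zero_mem
      add_mem' := fun {a b} ha hb u hu => by
        rw [Matrix.add_mulVec]
        exact U.add_mem (ha u hu) (hb u hu)
      smul_mem' := fun c a ha u hu => by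
        rw [Matrix.smul_mulVec]
        exact U.smul_mem c (ha u hu) }
  refine lieGen_le (S := S) hU ?_ hx
  intro a ha b hb u hu
  rw [Matrix.sub_mulVec, ← Matrix.mulVec_mulVec, ← Matrix.mulVec_mulVec]
  exact U.sub_mem (ha _ (hb u hu)) (hb _ (ha u hu))

/-- The bracket of two infinitesimal similitudes preserves the form. -/
theorem br_form {ψ x y : Matrix ι ι K} {c d : K} (hx : x.transpose * ψ + ψ * x = c • ψ)
    (hy : y.transpose * ψ + ψ * y = d • ψ) :
    (x * y - y * x).transpose * ψ + ψ * (x * y - y * x) = 0 := by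
  have hx' : x.transpose * ψ = c • ψ - ψ * x := eq_sub_of_add_eq hx
  have hy' : y.transpose * ψ = d • ψ - ψ * y := eq_sub_of_add_eq hy
  rw [Matrix.transpose_sub, Matrix.transpose_mul, Matrix.transpose_mul, Matrix.sub_mul,
    Matrix.mul_assoc, Matrix.mul_assoc, hx', hy', Matrix.mul_sub, Matrix.mul_sub,
    ← Matrix.mul_assoc, ← Matrix.mul_assoc, hx', hy', Matrix.mul_sub, Matrix.mul_smul,
    Matrix.mul_smul, hx', hy', Matrix.sub_mul, Matrix.sub_mul, Matrix.smul_mul, Matrix.smul_mul,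
    smul_sub, smul_sub, smul_smul, smul_smul, mul_comm d c, Matrix.mul_assoc, Matrix.mul_assoc]
  abel

theorem lieGen_form {W : Set (Matrix ι ι K)} {ψ : Matrix ι ι K}
    (hW : ∀ p ∈ W, p.transpose * ψ + ψ * p = ψ) {x : Matrix ι ι K} (hx : x ∈ lieGen W) :
    ∃ c : K, x.transpose * ψ + ψ * x = c • ψ := by
  let S : Submodule K (Matrix ι ι K) :=
    { carrier := {x | ∃ c : K, x.transpose * ψ + ψ * x = c • ψ}
      zero_mem' := ⟨0, by simp⟩
      add_mem' := by
        rintro a b ⟨c, hc⟩ ⟨d, hd⟩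
        refine ⟨c + d, ?_⟩
        rw [Matrix.transpose_add, Matrix.add_mul, Matrix.mul_add, add_smul, ← hc, ← hd]
        abel
      smul_mem' := by
        rintro r a ⟨c, hc⟩
        refine ⟨r * c, ?_⟩
        rw [Matrix.transpose_smul, Matrix.smul_mul, Matrix.mul_smul, ← smul_add, hc, smul_smul] }
  refine lieGen_le (S := S) (fun p hp => ⟨1, by rw [one_smul]; exact hW p hp⟩) ?_ hx
  rintro a ⟨c, ha⟩ b ⟨d, hb⟩
  exact ⟨0, by rw [zero_smul]; exact br_form ha hb⟩

end gen

section cr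

variable {K : Type} [Field K] [CharZero K] [IsAlgClosed K] {ι : Type} [Fintype ι]
  [DecidableEq ι] {n : ℕ} {W : Set (Matrix ι ι K)}
  (semi : ∀ U : Submodule K (ι → K), (∀ p ∈ W, ∀ u ∈ U, p *ᵥ u ∈ U) →
    ∃ U' : Submodule K (ι → K), (∀ p ∈ W, ∀ u ∈ U', p *ᵥ u ∈ U') ∧ IsCompl U U')

theorem aeval_mulRight (a : Matrix ι ι K) (p : Polynomial K) :
    Polynomial.aeval (LinearMap.mulRight K a) p = LinearMap.mulRight K (Polynomial.aeval a p) := by
  induction p using Polynomial.induction_on' with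
  | add p q hp hq =>
    rw [map_add, map_add, hp, hq]
    ext1 x
    simp [mul_add]
  | monomial m c =>
    rw [Polynomial.aeval_monomial, Polynomial.aeval_monomial, LinearMap.pow_mulRight]
    ext1 x
    rw [Module.End.mul_apply, LinearMap.mulRight_apply, LinearMap.mulRight_apply,
      Module.algebraMap_end_apply, ← mul_assoc, ← Algebra.commutes, mul_assoc,
      Algebra.smul_def]

include semi

theorem semiE : ∀ U : Submodule K (ι → K),
    (∀ x ∈ (lieGen W).comap (LinearMap.toMatrix' : End K (ι → K) ≃ₗ[K] Matrix ι ι K).toLinearMap,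
      ∀ u ∈ U, x u ∈ U) →
    ∃ U' : Submodule K (ι → K), (∀ x ∈ (lieGen W).comap
      (LinearMap.toMatrix' : End K (ι → K) ≃ₗ[K] Matrix ι ι K).toLinearMap,
      ∀ u ∈ U', x u ∈ U') ∧ IsCompl U U' := by
  intro U hU
  have hx : ∀ (x : End K (ι → K)) (u : ι → K), x u = LinearMap.toMatrix' x *ᵥ u := by
    intro x u
    rw [← Matrix.toLin'_apply, Matrix.toLin'_toMatrix']
  obtain ⟨U', h1, h2⟩ := semi U (by
    intro p hp u hu
    have h3 : Matrix.toLin' p ∈ (lieGen W).comap
        (LinearMap.toMatrix' : End K (ι → K) ≃ₗ[K] Matrix ι ι K).toLinearMap := by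
      rw [Submodule.mem_comap]
      show LinearMap.toMatrix' (Matrix.toLin' p) ∈ lieGen W
      rw [LinearMap.toMatrix'_toLin']
      exact subset_lieGen W hp
    exact hU _ h3 u hu)
  refine ⟨U', fun x hx' u hu => ?_, h2⟩
  rw [hx]
  exact lieGen_stable h1 hx' u hu

/-- Equivariant projections for the tensor representation. -/
theorem cr_tens (S : Submodule K ((Fin n → ι) → K))
    (hS : ∀ z ∈ lieGen W, ∀ t ∈ S, Dn n z *ᵥ t ∈ S) :
    ∃ P : Matrix (Fin n → ι) (Fin n → ι) K, (∀ z ∈ lieGen W, P * Dn n z = Dn n z * P) ∧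
      (∀ t, P *ᵥ t ∈ S) ∧ ∀ t ∈ S, P *ᵥ t = t := by
  let δ : End K (ι → K) →ₗ[K] End K ((Fin n → ι) → K) :=
    (Matrix.toLin' : Matrix (Fin n → ι) (Fin n → ι) K ≃ₗ[K] _).toLinearMap ∘ₗ Dn n ∘ₗ
      (LinearMap.toMatrix' : End K (ι → K) ≃ₗ[K] Matrix ι ι K).toLinearMap
  have hδ : ∀ x, δ x = Matrix.toLin' (Dn n (LinearMap.toMatrix' x)) := fun x => rfl
  obtain ⟨P, h1, h2, h3⟩ := exists_projector ((lieGen W).comap
    (LinearMap.toMatrix' : End K (ι → K) ≃ₗ[K] Matrix ι ι K).toLinearMap) (by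
      intro x hx y hy
      rw [Submodule.mem_comap] at *
      show LinearMap.toMatrix' (x * y - y * x) ∈ lieGen W
      rw [map_sub, LinearMap.toMatrix'_mul, LinearMap.toMatrix'_mul]
      exact lieGen_br W _ hx _ hy) (semiE semi) δ (by
      intro x _ y _
      rw [hδ, hδ, hδ, map_sub, LinearMap.toMatrix'_mul, LinearMap.toMatrix'_mul, Dn_br, map_sub,
        Module.End.mul_eq_comp, Module.End.mul_eq_comp, ← Matrix.toLin'_mul,
        ← Matrix.toLin'_mul]) (fun z _ hz => Dn_semisimple z hz) S (by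
      intro x hx w hw
      exact hS _ hx w hw)
  refine ⟨LinearMap.toMatrix' P, fun z hz => ?_, fun t => ?_, fun t ht => ?_⟩
  · have h4 := h1 (Matrix.toLin' z) (by
      rw [Submodule.mem_comap]
      show LinearMap.toMatrix' (Matrix.toLin' z) ∈ lieGen W
      rw [LinearMap.toMatrix'_toLin']
      exact hz)
    rw [hδ, LinearMap.toMatrix'_toLin'] at h4
    have h5 := congrArg LinearMap.toMatrix' h4
    rw [LinearMap.toMatrix'_mul, LinearMap.toMatrix'_mul, LinearMap.toMatrix'_toLin'] at h5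
    exact h5
  · rw [← Matrix.toLin'_apply, Matrix.toLin'_toMatrix']
    exact h2 t
  · rw [← Matrix.toLin'_apply, Matrix.toLin'_toMatrix']
    exact h3 t ht

/-- Equivariant projections for the adjoint representation. -/
theorem cr_ad (S : Submodule K (Matrix ι ι K))
    (hS : ∀ z ∈ lieGen W, ∀ t ∈ S, z * t - t * z ∈ S) :
    ∃ Q : End K (Matrix ι ι K), (∀ z ∈ lieGen W, ∀ y, Q (z * y - y * z) = z * Q y - Q y * z) ∧
      (∀ t, Q t ∈ S) ∧ ∀ t ∈ S, Q t = t := by
  let δ : End K (ι → K) →ₗ[K] End K (Matrix ι ι K) :=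
    (LinearMap.mul K (Matrix ι ι K) - (LinearMap.mul K (Matrix ι ι K)).flip) ∘ₗ
      (LinearMap.toMatrix' : End K (ι → K) ≃ₗ[K] Matrix ι ι K).toLinearMap
  have hδ : ∀ x y, δ x y = LinearMap.toMatrix' x * y - y * LinearMap.toMatrix' x :=
    fun x y => rfl
  have hδ' : ∀ x, δ x = LinearMap.mulLeft K (LinearMap.toMatrix' x) -
      LinearMap.mulRight K (LinearMap.toMatrix' x) := fun x => rfl
  obtain ⟨P, h1, h2, h3⟩ := exists_projector ((lieGen W).comap
    (LinearMap.toMatrix' : End K (ι → K) ≃ₗ[K] Matrix ι ι K).toLinearMap) (by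
      intro x hx y hy
      rw [Submodule.mem_comap] at *
      show LinearMap.toMatrix' (x * y - y * x) ∈ lieGen W
      rw [map_sub, LinearMap.toMatrix'_mul, LinearMap.toMatrix'_mul]
      exact lieGen_br W _ hx _ hy) (semiE semi) δ (by
      intro x _ y _
      ext1 w
      rw [LinearMap.sub_apply, Module.End.mul_apply, Module.End.mul_apply]
      simp only [hδ]
      rw [map_sub, LinearMap.toMatrix'_mul, LinearMap.toMatrix'_mul]
      noncomm_ring) (by
      intro z _ hz
      rw [hδ']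
      have h4 : End.IsSemisimple (LinearMap.mulLeft K (LinearMap.toMatrix' z)) := by
        refine End.isSemisimple_of_squarefree_aeval_eq_zero (p := minpoly K z)
          hz.minpoly_squarefree ?_
        let φ : End K (ι → K) →ₐ[K] End K (Matrix ι ι K) :=
          (Algebra.lmul K (Matrix ι ι K)).comp
            (LinearMap.toMatrixAlgEquiv' (R := K) (n := ι)).toAlgHom
        have h5 : (LinearMap.mulLeft K (LinearMap.toMatrix' z) : End K (Matrix ι ι K)) = φ z := rfl
        rw [h5, Polynomial.aeval_algHom_apply, minpoly.aeval, map_zero]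
      have h5 : End.IsSemisimple (LinearMap.mulRight K (LinearMap.toMatrix' z)) := by
        refine End.isSemisimple_of_squarefree_aeval_eq_zero (p := minpoly K z)
          hz.minpoly_squarefree ?_
        have h6 : Polynomial.aeval (LinearMap.toMatrix' z) (minpoly K z) = 0 := by
          have h7 : LinearMap.toMatrix' z = LinearMap.toMatrixAlgEquiv' (R := K) (n := ι) z := rfl
          have h8 : Polynomial.aeval ((LinearMap.toMatrixAlgEquiv' (R := K) (n := ι)).toAlgHom z)
            (minpoly K z) = 0 := by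
            rw [Polynomial.aeval_algHom_apply, minpoly.aeval, map_zero]
          exact h8
        rw [aeval_mulRight, h6]
        ext1 x
        simp
      exact End.IsSemisimple.sub_of_commute (by
        show LinearMap.mulLeft K _ * LinearMap.mulRight K _ =
          LinearMap.mulRight K _ * LinearMap.mulLeft K _
        ext1 x
        simp [mul_assoc]) h4 h5) S (by
      intro x hx w hw
      rw [hδ]
      exact hS _ hx w hw)
  refine ⟨P, fun z hz y => ?_, h2, h3⟩
  have h4 := h1 (Matrix.toLin' z) (by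
      rw [Submodule.mem_comap]
      show LinearMap.toMatrix' (Matrix.toLin' z) ∈ lieGen W
      rw [LinearMap.toMatrix'_toLin']
      exact hz)
  have h5 := congrArg (fun f : End K (Matrix ι ι K) => f y) h4
  simp only [Module.End.mul_apply, hδ, LinearMap.toMatrix'_toLin'] at h5
  exact h5

end cr

section core

variable {K : Type} [Field K] [CharZero K] [IsAlgClosed K] {ι : Type} [Fintype ι]
  [DecidableEq ι]

/-- The hypotheses of the core theorem. -/
structure CoreHyp (n : ℕ) (ψ : Matrix ι ι K) (W E : Set (Matrix ι ι K))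
    (𝔥 : Submodule K (Matrix ι ι K)) : Prop where
  card : Fintype.card ι = 2 * n
  unit : IsUnit ψ
  idem : ∀ p ∈ W, p * p = p
  form : ∀ p ∈ W, p.transpose * ψ + ψ * p = ψ
  ne : W.Nonempty
  commE : ∀ p ∈ W, ∀ e ∈ E, p * e = e * p
  falt : ∀ z : Matrix ι ι K, (∀ p ∈ W, z * p = p * z) → (∀ e ∈ E, z * e = e * z) →
    z.transpose * ψ = ψ * z
  semi : ∀ U : Submodule K (ι → K), (∀ p ∈ W, ∀ u ∈ U, p *ᵥ u ∈ U) →
    ∃ U' : Submodule K (ι → K), (∀ p ∈ W, ∀ u ∈ U', p *ᵥ u ∈ U') ∧ IsCompl U U'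
  hform : ∀ X ∈ 𝔥, X.transpose * ψ + ψ * X = 0
  hE : ∀ X ∈ 𝔥, ∀ e ∈ E, X * e = e * X
  hT : ∀ T : Matrix (Fin n → ι) (Fin n → ι) K, AltM T →
    (∀ p ∈ W, T * Dn n p = Dn n p * T) → ∀ X ∈ 𝔥, T * Dn n X = Dn n X * T

variable {n : ℕ} {ψ : Matrix ι ι K} {W E : Set (Matrix ι ι K)} {𝔥 : Submodule K (Matrix ι ι K)}

/-- The core theorem. -/
theorem core (h : CoreHyp n ψ W E 𝔥) : 𝔥 ≤ lieGen W ∧ (1 : Matrix ι ι K) ∈ lieGen W := by
  set 𝔤 := lieGen W with h𝔤
  have hbr : ∀ x ∈ 𝔤, ∀ y ∈ 𝔤, x * y - y * x ∈ 𝔤 := lieGen_br W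
  -- the highest weight step
  have hst : ∀ X ∈ 𝔥, ∀ S : Submodule K ((Fin n → ι) → K), S ≤ AltS K ι n →
      (∀ z ∈ 𝔤, ∀ t ∈ S, Dn n z *ᵥ t ∈ S) → ∀ t ∈ S, Dn n X *ᵥ t ∈ S := by
    intro X hX S hS hSz t ht
    obtain ⟨P, hP1, hP2, hP3⟩ := cr_tens h.semi S hSz
    have hPalt : ∀ (σ : Equiv.Perm (Fin n)) (i j : Fin n → ι),
        P (i ∘ σ) j = ((Equiv.Perm.sign σ : ℤ) : K) * P i j := by
      intro σ i j
      have h1 := hS (hP2 (Pi.single j 1)) σ i
      rw [Matrix.mulVec_single_one] at h1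
      exact h1
    have h2 := h.hT (altc P) (altc_AltM hPalt)
      (fun p hp => altc_comm (hP1 p (subset_lieGen W hp))) X hX
    have h3 : Dn n X *ᵥ t = altc P *ᵥ (Dn n X *ᵥ t) := by
      rw [Matrix.mulVec_mulVec, h2, ← Matrix.mulVec_mulVec, altc_mulVec P t (hS ht), hP3 t ht]
    rw [h3]
    exact altc_range hP2 _
  have hblock : ∀ q : Matrix ι ι K, q * q = q → q.trace = (n : K) →
      (∀ z ∈ 𝔤, q * z - z * q ∈ 𝔤) → ∀ X ∈ 𝔥, (1 - q) * X * q ∈ 𝔤 := by
    intro q hqq hqt hq X hX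
    obtain ⟨A, B, hBA, rfl⟩ := exists_factor hqq hqt
    exact hw hBA 𝔤 hq hbr X (hst X hX)
  have hpX : ∀ p ∈ W, ∀ X ∈ 𝔥, p * X - X * p ∈ 𝔤 := by
    intro p hp X hX
    have hp𝔤 := subset_lieGen W hp
    have htr := trace_wh h.card h.unit (h.form p hp)
    have h1 := hblock p (h.idem p hp) htr (fun z hz => hbr p hp𝔤 z hz) X hX
    have h2 := hblock (1 - p) (by
      rw [mul_sub, mul_one, sub_mul, one_mul, h.idem p hp, sub_self, sub_zero]) (by
      rw [Matrix.trace_sub, Matrix.trace_one, htr, h.card]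
      push_cast
      ring) (fun z hz => by
      have h3 : (1 - p) * z - z * (1 - p) = - (p * z - z * p) := by noncomm_ring
      rw [h3]
      exact 𝔤.neg_mem (hbr p hp𝔤 z hz)) X hX
    have h3 : p * X - X * p = (1 - (1 - p)) * X * (1 - p) - (1 - p) * X * p := by noncomm_ring
    rw [h3]
    exact 𝔤.sub_mem h2 h1
  have hall : ∀ x ∈ 𝔤, ∀ X ∈ 𝔥, x * X - X * x ∈ 𝔤 := by
    let S : Submodule K (Matrix ι ι K) :=
      { carrier := {x | x ∈ 𝔤 ∧ ∀ X ∈ 𝔥, x * X - X * x ∈ 𝔤}
        zero_mem' := ⟨𝔤.zero_mem, fun X _ => by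
          rw [zero_mul, mul_zero, sub_zero]; exact 𝔤.zero_mem⟩
        add_mem' := fun {a b} ha hb => ⟨𝔤.add_mem ha.1 hb.1, fun X hX => by
          have h1 : (a + b) * X - X * (a + b) = (a * X - X * a) + (b * X - X * b) := by
            noncomm_ring
          rw [h1]
          exact 𝔤.add_mem (ha.2 X hX) (hb.2 X hX)⟩
        smul_mem' := fun c a ha => ⟨𝔤.smul_mem c ha.1, fun X hX => by
          rw [smul_mul_assoc, mul_smul_comm, ← smul_sub]
          exact 𝔤.smul_mem c (ha.2 X hX)⟩ }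
    have h1 : 𝔤 ≤ S := lieGen_le (fun p hp => ⟨subset_lieGen W hp, hpX p hp⟩) (by
      intro a ha b hb
      refine ⟨hbr a ha.1 b hb.1, fun X hX => ?_⟩
      have h2 : (a * b - b * a) * X - X * (a * b - b * a) =
          (a * (b * X - X * b) - (b * X - X * b) * a) -
            (b * (a * X - X * a) - (a * X - X * a) * b) := by noncomm_ring
      rw [h2]
      exact 𝔤.sub_mem (hbr a ha.1 _ (hb.2 X hX)) (hbr b hb.1 _ (ha.2 X hX)))
    exact fun x hx => (h1 hx).2
  -- the projection to the part that preserves the form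
  let 𝔤' : Submodule K (Matrix ι ι K) :=
    { carrier := {y | y ∈ 𝔤 ∧ y.transpose * ψ + ψ * y = 0}
      zero_mem' := ⟨𝔤.zero_mem, by simp⟩
      add_mem' := fun {a b} ha hb => ⟨𝔤.add_mem ha.1 hb.1, by
        have h1 := ha.2
        have h2 := hb.2
        rw [Matrix.transpose_add, Matrix.add_mul, Matrix.mul_add]
        rw [show a.transpose * ψ + b.transpose * ψ + (ψ * a + ψ * b) =
          (a.transpose * ψ + ψ * a) + (b.transpose * ψ + ψ * b) by abel, h1, h2, add_zero]⟩
      smul_mem' := fun c a ha => ⟨𝔤.smul_mem c ha.1, by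
        have h1 := ha.2
        rw [Matrix.transpose_smul, Matrix.smul_mul, Matrix.mul_smul, ← smul_add, h1, smul_zero]⟩ }
  obtain ⟨Q, hQ1, hQ2, hQ3⟩ := cr_ad h.semi 𝔤' (by
    intro z hz t ht
    obtain ⟨c, hc⟩ := lieGen_form h.form hz
    refine ⟨hbr z hz t ht.1, br_form hc (d := 0) ?_⟩
    rw [zero_smul]
    exact ht.2)
  have key : ∀ (y : Matrix ι ι K) (c : K), y.transpose * ψ + ψ * y = c • ψ →
      (∀ e ∈ E, y * e = e * y) → (∀ x ∈ 𝔤, x * y - y * x ∈ 𝔤) → y - Q y = (c / 2) • 1 := by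
    intro y c hy hyE hyg
    have h1 : ∀ x ∈ 𝔤, x * (y - Q y) = (y - Q y) * x := by
      intro x hx
      obtain ⟨d, hd⟩ := lieGen_form h.form hx
      have h2 : Q (x * y - y * x) = x * y - y * x := hQ3 _ ⟨hyg x hx, br_form hd hy⟩
      rw [hQ1 x hx] at h2
      rw [mul_sub, sub_mul]
      rw [sub_eq_sub_iff_add_eq_add] at h2 ⊢
      rw [add_comm (y * x)]
      exact h2.symm
    have h3 : ∀ e ∈ E, (y - Q y) * e = e * (y - Q y) := by
      intro e he
      have h4 : e * Q y = Q y * e :=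
        lieGen_comm (W := W) (fun p hp => (h.commE p hp e he).symm) (hQ2 y).1
      rw [sub_mul, mul_sub, hyE e he, h4]
    have h5 := h.falt (y - Q y) (fun p hp => (h1 p (subset_lieGen W hp)).symm) h3
    have h6 : (y - Q y).transpose * ψ + ψ * (y - Q y) = c • ψ := by
      rw [Matrix.transpose_sub, Matrix.sub_mul, Matrix.mul_sub]
      have h7 := (hQ2 y).2
      rw [show y.transpose * ψ - (Q y).transpose * ψ + (ψ * y - ψ * Q y) =
        (y.transpose * ψ + ψ * y) - ((Q y).transpose * ψ + ψ * Q y) by abel, hy, h7, sub_zero]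
    rw [h5, ← two_smul K] at h6
    obtain ⟨u, hu⟩ := h.unit
    have h8 : ψ * ((2 : K) • (y - Q y)) = ψ * (c • (1 : Matrix ι ι K)) := by
      rw [Matrix.mul_smul, h6, Matrix.mul_smul, Matrix.mul_one]
    have h9 : (2 : K) • (y - Q y) = c • (1 : Matrix ι ι K) := by
      rw [← hu] at h8
      exact (Units.mul_right_inj u).1 h8
    have h10 : y - Q y = (2 : K)⁻¹ • ((2 : K) • (y - Q y)) := by
      rw [smul_smul, inv_mul_cancel₀ two_ne_zero, one_smul]
    rw [h10, h9, smul_smul, div_eq_inv_mul]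
  constructor
  · intro X hX
    have h1 := key X 0 (by rw [zero_smul]; exact h.hform X hX) (h.hE X hX)
      (fun x hx => hall x hx X hX)
    rw [zero_div, zero_smul, sub_eq_zero] at h1
    rw [h1]
    exact (hQ2 X).1
  · obtain ⟨p, hp⟩ := h.ne
    have hp𝔤 := subset_lieGen W hp
    have h1 := key p 1 (by rw [one_smul]; exact h.form p hp) (h.commE p hp)
      (fun x hx => hbr x hx p hp𝔤)
    have h2 : (1 : Matrix ι ι K) = (2 : K) • (p - Q p) := by
      rw [h1, smul_smul, mul_one_div_cancel two_ne_zero, one_smul]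
    rw [h2]
    exact 𝔤.smul_mem _ (𝔤.sub_mem hp𝔤 (hQ2 p).1)

end core

end

end Pool.Agent.L5helper27.MM
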