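import Mathlib
import Pool.Agent.W528.ZC.Lin
import Pool.Agent.W528.ZC.All
import Pool.Agent.L5helper27.MM.Tens

/-!
# Polynomial functions on matrices: derivations, idempotents, restriction of scalars
-/

set_option linter.unusedSectionVars false

open Module MvPolynomial

namespace Pool.Agent.L5helper27.MM

open Pool.Agent.W528.ZC

noncomputable section

section idc

variable {K : Type} [Field K] {ι : Type} [Fintype ι] [DecidableEq ι]

open Pool.Agent.W978.ZC.ID in
theorem coeff_Ph {p : Matrix ι ι K} (hp : p * p = p) (f : MvPolynomial (ι × ι) K) (m : ℕ) :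
    (Ph p (D p f)).coeff m = (m : K) • (Ph p f).coeff m := by
  rw [← T_der p hp f]
  cases m with
  | zero => rw [Polynomial.coeff_X_mul_zero, Nat.cast_zero, zero_smul]
  | succ m =>
    rw [Polynomial.coeff_X_mul, Polynomial.coeff_derivative, Nat.cast_smul_eq_nsmul, nsmul_eq_mul]
    push_cast
    ring

open Pool.Agent.W978.ZC.ID in
/-- A subspace that is stable under the derivation given by an idempotent matrix `p` is stable
under the substitutions given by `1 - p + c p`. -/
theorem sub_mem_of_D [CharZero K] {p : Matrix ι ι K} (hp : p * p = p)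
    (S : Submodule K (MvPolynomial (ι × ι) K)) (hS : ∀ f ∈ S, D p f ∈ S)
    {f : MvPolynomial (ι × ι) K} (hf : f ∈ S) (c : K) : sub 1 (1 - p + c • p) f ∈ S := by
  let Dl : End K (MvPolynomial (ι × ι) K) := (D p).toLinearMap
  have hDl : ∀ f, Dl f = D p f := fun f => rfl
  have h1 : ∀ (r : Polynomial K) (m : ℕ),
      (Ph p (Polynomial.aeval Dl r f)).coeff m = r.eval (m : K) • (Ph p f).coeff m := by
    intro r m
    induction r using Polynomial.induction_on' with
    | add q r hq hr =>
      rw [map_add, LinearMap.add_apply, map_add, Polynomial.coeff_add, hq, hr,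
        Polynomial.eval_add, add_smul]
    | monomial k a =>
      have h2 : ∀ k : ℕ, (Ph p ((Dl ^ k) f)).coeff m = ((m : K) ^ k) • (Ph p f).coeff m := by
        intro k
        induction k with
        | zero => rw [pow_zero, pow_zero, one_smul]; rfl
        | succ k ih =>
          rw [pow_succ', Module.End.mul_apply, hDl, coeff_Ph hp, ih, smul_smul, pow_succ']
      rw [Polynomial.aeval_monomial, Module.End.mul_apply, Module.algebraMap_end_apply,
        Polynomial.eval_monomial]
      have h3 : Ph p (a • (Dl ^ k) f) = a • Ph p ((Dl ^ k) f) := map_smul _ _ _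
      rw [h3, Polynomial.coeff_smul, h2, smul_smul]
  have h2 : ∀ (r : Polynomial K), Polynomial.aeval Dl r f ∈ S := by
    intro r
    induction r using Polynomial.induction_on' with
    | add q r hq hr =>
      rw [map_add, LinearMap.add_apply]
      exact S.add_mem hq hr
    | monomial k a =>
      have h3 : ∀ k : ℕ, (Dl ^ k) f ∈ S := by
        intro k
        induction k with
        | zero => exact hf
        | succ k ih =>
          rw [pow_succ', Module.End.mul_apply, hDl]
          exact hS _ ih
      rw [Polynomial.aeval_monomial, Module.End.mul_apply, Module.algebraMap_end_apply]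
      exact S.smul_mem a (h3 k)
  set N := (Ph p f).natDegree with hN
  let v : ℕ → K := fun m => (m : K)
  let r : Polynomial K := Lagrange.interpolate (Finset.range (N + 1)) v fun m => c ^ m
  have hr : ∀ m ∈ Finset.range (N + 1), r.eval (m : K) = c ^ m := by
    intro m hm
    exact Lagrange.eval_interpolate_at_node (v := v) (fun m => c ^ m)
      (fun a _ b _ hab => Nat.cast_injective hab) hm
  have h3 : Polynomial.eval 1 (Ph p (Polynomial.aeval Dl r f)) = Polynomial.aeval Dl r f := by
    have h := eval_Ph p 1 (Polynomial.aeval Dl r f)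
    rw [C_1, one_smul, sub_add_cancel] at h
    rw [h]
    exact sub_one _
  have h4 : (Ph p (Polynomial.aeval Dl r f)).natDegree ≤ N := by
    rw [Polynomial.natDegree_le_iff_coeff_eq_zero]
    intro m hm
    rw [h1, Polynomial.coeff_eq_zero_of_natDegree_lt (hN ▸ hm), smul_zero]
  have h5 : sub 1 (1 - p + c • p) f = Polynomial.aeval Dl r f := by
    rw [← h3, ← eval_Ph, Polynomial.eval_eq_sum_range' (Nat.lt_succ_of_le (le_refl _)),
      Polynomial.eval_eq_sum_range' (Nat.lt_succ_of_le h4), ← hN]
    refine Finset.sum_congr rfl fun m hm => ?_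
    rw [h1, hr m hm, one_pow, mul_one, ← C_pow, mul_comm, ← MvPolynomial.smul_eq_C_mul]
  rw [h5]
  exact h2 r

/-- Transfer: if a space of polynomials is stable under the derivations given by some idempotent
matrices and the polynomials vanish at `1`, they vanish on the monoid generated by the
`1 - p + c p`. -/
theorem transfer [CharZero K] (S : Submodule K (MvPolynomial (ι × ι) K))
    (W : Set (Matrix ι ι K)) (hW : ∀ p ∈ W, p * p = p) (hS : ∀ p ∈ W, ∀ f ∈ S, D p f ∈ S)
    (h1 : ∀ f ∈ S, ev (1 : Matrix ι ι K) f = 0) {x : Matrix ι ι K}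
    (hx : x ∈ Submonoid.closure {x : Matrix ι ι K | ∃ (p : Matrix ι ι K) (c : K), p ∈ W ∧
      x = 1 - p + c • p}) : ∀ f ∈ S, ev x f = 0 := by
  have h2 : ∀ f ∈ S, sub 1 x f ∈ S := by
    induction hx using Submonoid.closure_induction with
    | mem x hx =>
      obtain ⟨p, c, hp, rfl⟩ := hx
      exact fun f hf => sub_mem_of_D (hW p hp) S (hS p hp) hf c
    | one =>
      intro f hf
      rwa [sub_one]
    | mul x y _ _ hx hy =>
      intro f hf
      have h3 := hx _ (hy f hf)
      rwa [Pool.Agent.W528.ZC.sub_sub, mul_one] at h3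
  intro f hf
  have h3 := h1 _ (h2 f hf)
  rwa [ev_sub, one_mul, one_mul] at h3

end idc

section scalars

variable {k Ω : Type} [Field k] [Field Ω] [Algebra k Ω]

/-- Finitely many elements of `Ω` in terms of a basis. -/
theorem expandSet (k : Type) {Ω : Type} [Field k] [Field Ω] [Algebra k Ω] (A : Finset Ω) :
    ∃ (β : Type) (F : Finset β) (w : β → Ω) (c : β → (Ω →ₗ[k] k)),
      ∀ a ∈ A, a = ∑ i ∈ F, w i * algebraMap k Ω (c i a) := by
  classical
  let b := Module.Free.chooseBasis k Ω
  refine ⟨_, A.biUnion fun a => (b.repr a).support, b, b.coord, fun a ha => ?_⟩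
  have h1 := b.linearCombination_repr a
  rw [Finsupp.linearCombination_apply, Finsupp.sum] at h1
  conv_lhs => rw [← h1]
  rw [Finset.sum_subset (s₂ := A.biUnion fun a => (b.repr a).support)]
  · refine Finset.sum_congr rfl fun i _ => ?_
    rw [Algebra.smul_def, mul_comm]
    rfl
  · intro i hi
    exact Finset.mem_biUnion.2 ⟨a, ha, hi⟩
  · intro i _ hi
    rw [Finsupp.notMem_support_iff.1 hi, zero_smul]

/-- Every matrix over `Ω` is a combination of its components over `k`. -/
theorem mat_expand (k : Type) {Ω : Type} [Field k] [Field Ω] [Algebra k Ω] {m n : Type}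
    [Fintype m] [Fintype n] (T : Matrix m n Ω) : T ∈ Submodule.span Ω {Q : Matrix m n Ω |
      ∃ c : Ω →ₗ[k] k, Q = (T.map c).map (algebraMap k Ω)} := by
  classical
  obtain ⟨β, F, w, c, h⟩ := expandSet k (Finset.univ.image fun q : m × n => T q.1 q.2)
  have h1 : T = ∑ i ∈ F, w i • (T.map (c i)).map (algebraMap k Ω) := by
    ext a b
    rw [Matrix.sum_apply]
    have h2 := h (T a b) (Finset.mem_image.2 ⟨(a, b), Finset.mem_univ _, rfl⟩)
    exact h2
  rw [h1]
  exact Submodule.sum_mem _ fun i _ => Submodule.smul_mem _ _ (Submodule.subset_span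
    ⟨c i, by rw [← h1]⟩)

theorem map_mul_right {m n o : Type} [Fintype n] (c : Ω →ₗ[k] k) (T : Matrix m n Ω)
    (M : Matrix n o k) : (T * M.map (algebraMap k Ω)).map c = T.map c * M := by
  ext i j
  rw [Matrix.map_apply, Matrix.mul_apply, Matrix.mul_apply, map_sum]
  refine Finset.sum_congr rfl fun l _ => ?_
  rw [Matrix.map_apply, Matrix.map_apply, mul_comm, ← Algebra.smul_def, map_smul, smul_eq_mul,
    mul_comm]

theorem map_mul_left {m n o : Type} [Fintype n] (c : Ω →ₗ[k] k) (T : Matrix n o Ω)
    (M : Matrix m n k) : (M.map (algebraMap k Ω) * T).map c = M * T.map c := by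
  ext i j
  rw [Matrix.map_apply, Matrix.mul_apply, Matrix.mul_apply, map_sum]
  refine Finset.sum_congr rfl fun l _ => ?_
  rw [Matrix.map_apply, Matrix.map_apply, ← Algebra.smul_def, map_smul, smul_eq_mul]

variable {σ : Type}

/-- A linear functional applied to the coefficients. -/
def cm (c : Ω →ₗ[k] k) (f : MvPolynomial σ Ω) : MvPolynomial σ k :=
  ∑ m ∈ f.support, monomial m (c (coeff m f))

theorem coeff_cm (c : Ω →ₗ[k] k) (f : MvPolynomial σ Ω) (m : σ →₀ ℕ) :
    coeff m (cm c f) = c (coeff m f) := by
  classical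
  unfold cm
  rw [coeff_sum]
  simp only [coeff_monomial]
  rw [Finset.sum_ite_eq' f.support m]
  split_ifs with h
  · rfl
  · rw [notMem_support_iff.1 h, map_zero]

theorem cm_add (c : Ω →ₗ[k] k) (f g : MvPolynomial σ Ω) : cm c (f + g) = cm c f + cm c g := by
  ext m
  rw [coeff_cm, coeff_add, coeff_add, coeff_cm, coeff_cm, map_add]

theorem cm_zero (c : Ω →ₗ[k] k) : cm c (0 : MvPolynomial σ Ω) = 0 := by
  ext m
  rw [coeff_cm, coeff_zero, coeff_zero, map_zero]

theorem cm_mul (c : Ω →ₗ[k] k) (a : Ω) (r : MvPolynomial σ k) :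
    cm c (C a * map (algebraMap k Ω) r) = c a • r := by
  ext m
  rw [coeff_cm, coeff_C_mul, coeff_map, coeff_smul, mul_comm, ← Algebra.smul_def, map_smul,
    smul_eq_mul, smul_eq_mul, mul_comm]

/-- Induction for polynomials over an extension field. -/
theorem ind_ext {P : MvPolynomial σ Ω → Prop} (f : MvPolynomial σ Ω)
    (h1 : ∀ (a : Ω) (r : MvPolynomial σ k), P (C a * map (algebraMap k Ω) r))
    (h2 : ∀ f g, P f → P g → P (f + g)) : P f := by
  induction f using MvPolynomial.induction_on' with
  | monomial u a =>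
    have h := h1 a (monomial u 1)
    rwa [map_monomial, map_one, C_mul_monomial, mul_one] at h
  | add p q hp hq => exact h2 p q hp hq

variable {ι : Type} [Fintype ι] [DecidableEq ι]

theorem D_map (y : Matrix ι ι k) (r : MvPolynomial (ι × ι) k) :
    D (y.map (algebraMap k Ω)) (map (algebraMap k Ω) r) = map (algebraMap k Ω) (D y r) := by
  have hC : ∀ {F : Type} [Field F] (y : Matrix ι ι F) (a : F), D y (C a) = 0 := by
    intro F _ y a
    unfold D
    exact (mkDerivation F _).map_algebraMap a
  induction r using MvPolynomial.induction_on with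
  | C a => rw [map_C, hC, hC, map_zero]
  | add p q hp hq => rw [map_add, map_add, hp, hq, map_add, map_add]
  | mul_X p i hp =>
    rw [map_mul, map_X, Derivation.leibniz, Derivation.leibniz, hp, D_X, D_X, map_add,
      smul_eq_mul, smul_eq_mul, smul_eq_mul, smul_eq_mul, map_mul, map_mul, map_X, map_sum]
    congr 2
    refine Finset.sum_congr rfl fun j _ => ?_
    rw [map_mul, map_C, map_X, Matrix.map_apply]

theorem ev_map (x : Matrix ι ι k) (r : MvPolynomial (ι × ι) k) :
    ev (x.map (algebraMap k Ω)) (map (algebraMap k Ω) r) = algebraMap k Ω (ev x r) := by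
  induction r using MvPolynomial.induction_on with
  | C a => rw [map_C, ev_C, ev_C]
  | add p q hp hq => rw [map_add, map_add, hp, hq, map_add, map_add]
  | mul_X p i hp => rw [map_mul, map_X, map_mul, hp, ev_X, map_mul, ev_X, map_mul, Matrix.map_apply]

theorem D_cm (c : Ω →ₗ[k] k) (y : Matrix ι ι k) (f : MvPolynomial (ι × ι) Ω) :
    D y (cm c f) = cm c (D (y.map (algebraMap k Ω)) f) := by
  refine ind_ext (k := k) (P := fun f => D y (cm c f) = cm c (D (y.map (algebraMap k Ω)) f)) f
    (fun a r => ?_) (fun f g hf hg => ?_)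
  · rw [cm_mul, Derivation.map_smul, ← MvPolynomial.smul_eq_C_mul, Derivation.map_smul, D_map,
      MvPolynomial.smul_eq_C_mul (map (algebraMap k Ω) (D y r)) a, cm_mul]
  · rw [cm_add, map_add, hf, hg, map_add, cm_add]

theorem ev_cm (c : Ω →ₗ[k] k) (x : Matrix ι ι k) (f : MvPolynomial (ι × ι) Ω) :
    ev x (cm c f) = c (ev (x.map (algebraMap k Ω)) f) := by
  refine ind_ext (k := k) (P := fun f => ev x (cm c f) = c (ev (x.map (algebraMap k Ω)) f)) f
    (fun a r => ?_) (fun f g hf hg => ?_)
  · rw [cm_mul, map_smul, map_mul, ev_C, ev_map, mul_comm, ← Algebra.smul_def, map_smul,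
      smul_eq_mul, smul_eq_mul, mul_comm]
  · rw [cm_add, map_add, hf, hg, map_add, map_add]

/-- Every polynomial over `Ω` is a combination of its components over `k`. -/
theorem pol_expand (k : Type) {Ω : Type} [Field k] [Field Ω] [Algebra k Ω] {σ : Type}
    (f : MvPolynomial σ Ω) : f ∈ Submodule.span Ω {Q : MvPolynomial σ Ω |
      ∃ c : Ω →ₗ[k] k, Q = map (algebraMap k Ω) (cm c f)} := by
  classical
  obtain ⟨β, F, w, c, h⟩ := expandSet k (f.support.image fun m => coeff m f)
  have h1 : f = ∑ i ∈ F, w i • map (algebraMap k Ω) (cm (c i) f) := by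
    ext m
    rw [coeff_sum]
    have h3 : ∀ i, coeff m (w i • map (algebraMap k Ω) (cm (c i) f)) =
        w i * algebraMap k Ω (c i (coeff m f)) := by
      intro i
      rw [coeff_smul, coeff_map, coeff_cm, smul_eq_mul]
    rw [Finset.sum_congr rfl fun i _ => h3 i]
    by_cases hm : m ∈ f.support
    · exact h (coeff m f) (Finset.mem_image.2 ⟨m, hm, rfl⟩)
    · rw [notMem_support_iff.1 hm]
      symm
      refine Finset.sum_eq_zero fun i _ => ?_
      rw [map_zero, map_zero, mul_zero]
  rw [h1]
  exact Submodule.sum_mem _ fun i _ => Submodule.smul_mem _ _ (Submodule.subset_span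
    ⟨c i, by rw [← h1]⟩)

end scalars

section pm

variable {K : Type} [Field K] {ι : Type} [Fintype ι] [DecidableEq ι] {n : ℕ}

/-- The generic matrix. -/
def XX : Matrix ι ι (MvPolynomial (ι × ι) K) := Matrix.of fun i j => X (i, j)

theorem XX_map (x : Matrix ι ι K) : (XX (K := K) (ι := ι)).map (ev x) = x := by
  ext i j
  exact ev_X x (i, j)

theorem C_map {m o : Type} (x : Matrix ι ι K) (T : Matrix m o K) :
    (T.map (C : K → MvPolynomial (ι × ι) K)).map (ev x) = T := by
  ext i j
  exact ev_C x (T i j)

theorem tpow_XX (x : Matrix ι ι K) :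
    (tpow n (XX (K := K) (ι := ι))).map (ev x) = tpow n x := by
  ext i j
  rw [Matrix.map_apply, tpow_apply, tpow_apply, map_prod]
  exact Finset.prod_congr rfl fun k _ => ev_X x (i k, j k)

/-- The polynomials that express that `T` commutes with the tensor power. -/
def PT (T : Matrix (Fin n → ι) (Fin n → ι) K) :
    Matrix (Fin n → ι) (Fin n → ι) (MvPolynomial (ι × ι) K) :=
  T.map C * tpow n XX - tpow n XX * T.map C

theorem ev_PT (T : Matrix (Fin n → ι) (Fin n → ι) K) (x : Matrix ι ι K) (i j : Fin n → ι) :
    ev x (PT T i j) = (T * tpow n x - tpow n x * T) i j := by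
  have h : (PT T).map (ev x) = T * tpow n x - tpow n x * T := by
    unfold PT
    rw [Matrix.map_sub _ (map_sub (ev x)), Matrix.map_mul, Matrix.map_mul, C_map, tpow_XX]
  rw [← h]
  rfl

/-- The polynomials that express that `T` commutes with the matrix. -/
def PC (T : Matrix ι ι K) : Matrix ι ι (MvPolynomial (ι × ι) K) := T.map C * XX - XX * T.map C

theorem ev_PC (T : Matrix ι ι K) (x : Matrix ι ι K) (i j : ι) :
    ev x (PC T i j) = (T * x - x * T) i j := by
  have h : (PC T).map (ev x) = T * x - x * T := by
    unfold PC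
    rw [Matrix.map_sub _ (map_sub (ev x)), Matrix.map_mul, Matrix.map_mul, C_map, XX_map]
  rw [← h]
  rfl

/-- The entries of `a X b`. -/
def PB (a b : Matrix ι ι K) : Matrix ι ι (MvPolynomial (ι × ι) K) := a.map C * XX * b.map C

theorem ev_PB (a b : Matrix ι ι K) (x : Matrix ι ι K) (i j : ι) :
    ev x (PB a b i j) = (a * x * b) i j := by
  have h : (PB a b).map (ev x) = a * x * b := by
    unfold PB
    rw [Matrix.map_mul, Matrix.map_mul, C_map, C_map, XX_map]
  rw [← h]
  rfl

end pm

end

end Pool.Agent.L5helper27.MM
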