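import Mathlib
import Pool.Agent.W522.U.C8
import Pool.Agent.L5helper27.MM.Pol

/-!
# Consequences of the theorems of Faltings and Pink
-/

set_option linter.unusedSectionVars false

open Module MvPolynomial Matrix TensorProduct

namespace Pool.Agent.L5helper27.MM

open Pool.Agent.W528.ZC Pool.Agent.H204R3.GP

noncomputable section

section proj

variable {k Ω : Type} [Field k] [CharZero k] [Field Ω] [Algebra k Ω] {ι : Type} [Fintype ι]
  [DecidableEq ι]

/-- The identification of `Ω ⊗ k^ι` with `Ω^ι`. -/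
def eqv (k Ω ι : Type) [Field k] [Field Ω] [Algebra k Ω] [Fintype ι] [DecidableEq ι] :
    (Ω ⊗[k] (ι → k)) ≃ₗ[Ω] (ι → Ω) := TensorProduct.piScalarRight k Ω Ω ι

theorem eqv_tmul (a : Ω) (v : ι → k) (i : ι) : eqv k Ω ι (a ⊗ₜ[k] v) i = v i • a := by
  unfold eqv
  rw [TensorProduct.piScalarRight_apply, TensorProduct.piScalarRightHom_tmul]

theorem eqv_mulVec (M : Matrix ι ι k) (x : Ω ⊗[k] (ι → k)) :
    eqv k Ω ι ((Matrix.toLin' M).baseChange Ω x) = M.map (algebraMap k Ω) *ᵥ (eqv k Ω ι x) := by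
  induction x with
  | zero => simp only [map_zero, Matrix.mulVec_zero]
  | add x y hx hy => simp only [map_add, hx, hy, Matrix.mulVec_add]
  | tmul a v =>
    rw [LinearMap.baseChange_tmul, Matrix.toLin'_apply]
    funext i
    rw [eqv_tmul]
    simp only [Matrix.mulVec, dotProduct, eqv_tmul, Matrix.map_apply, Finset.sum_smul]
    refine Finset.sum_congr rfl fun j _ => ?_
    rw [Algebra.smul_def, Algebra.smul_def, map_mul, mul_assoc]

/-- Semisimplicity over an algebraic extension. -/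
theorem exists_proj_matrix [Algebra.IsAlgebraic k Ω] (S : Set (Matrix ι ι k))
    (hS : ∀ U : Submodule k (ι → k), (∀ M ∈ S, ∀ u ∈ U, M *ᵥ u ∈ U) →
      ∃ U' : Submodule k (ι → k), (∀ M ∈ S, ∀ u ∈ U', M *ᵥ u ∈ U') ∧ IsCompl U U')
    (U : Submodule Ω (ι → Ω)) (hU : ∀ M ∈ S, ∀ u ∈ U, M.map (algebraMap k Ω) *ᵥ u ∈ U) :
    ∃ P : Matrix ι ι Ω, (∀ v, P *ᵥ v ∈ U) ∧ (∀ u ∈ U, P *ᵥ u = u) ∧
      ∀ M ∈ S, P * M.map (algebraMap k Ω) = M.map (algebraMap k Ω) * P := by
  have h1 : SemiUnder ((fun M : Matrix ι ι k => Matrix.toLin' M) '' S) := by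
    intro U hU
    obtain ⟨U', h1, h2⟩ := hS U (fun M hM u hu => by
      have := hU _ ⟨M, hM, rfl⟩ u hu
      simp only [Matrix.toLin'_apply] at this
      exact this)
    refine ⟨U', ?_, h2⟩
    rintro _ ⟨M, hM, rfl⟩ u hu
    simp only [Matrix.toLin'_apply]
    exact h1 M hM u hu
  let e := eqv k Ω ι
  obtain ⟨Q, hQ1, hQ2, hQ3⟩ := Pool.Agent.W522.U.exists_proj_algebraic (Ω := Ω) _ h1
    (U.comap e.toLinearMap) (by
    rintro _ ⟨M, hM, rfl⟩ u hu
    rw [Submodule.mem_comap] at hu ⊢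
    change e ((Matrix.toLin' M).baseChange Ω u) ∈ U
    rw [eqv_mulVec]
    exact hU M hM _ hu)
  let P : End Ω (ι → Ω) := e.toLinearMap.comp (Q.comp e.symm.toLinearMap)
  have hP : ∀ v, LinearMap.toMatrix' P *ᵥ v = e (Q (e.symm v)) := by
    intro v
    rw [← Matrix.toLin'_apply, Matrix.toLin'_toMatrix']
    rfl
  refine ⟨LinearMap.toMatrix' P, fun v => ?_, fun u hu => ?_, fun M hM => ?_⟩
  · rw [hP]
    exact hQ1 _
  · rw [hP, hQ2 _ (by
      rw [Submodule.mem_comap]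
      change e (e.symm u) ∈ U
      rwa [LinearEquiv.apply_symm_apply]), LinearEquiv.apply_symm_apply]
  · apply Matrix.toLin'.injective
    ext1 v
    rw [Matrix.toLin'_mul, Matrix.toLin'_mul]
    ext1
    rw [LinearMap.comp_apply, LinearMap.comp_apply, LinearMap.comp_apply, LinearMap.comp_apply,
      Matrix.toLin'_apply, Matrix.toLin'_apply, Matrix.toLin'_apply, Matrix.toLin'_apply, hP, hP]
    set w := LinearMap.single Ω (fun _ => Ω) v 1
    have h3 : e.symm (M.map (algebraMap k Ω) *ᵥ w) = (Matrix.toLin' M).baseChange Ω (e.symm w) := by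
      apply e.injective
      rw [LinearEquiv.apply_symm_apply, eqv_mulVec, LinearEquiv.apply_symm_apply]
    rw [h3, hQ3 _ ⟨M, hM, rfl⟩, eqv_mulVec]

end proj

section pink

variable {k : Type} [Field k] {Ω : Type} [Field Ω] [Algebra k Ω] {ι : Type} [Fintype ι]
  [DecidableEq ι] {Γ : Type} [Group Γ] {ρ : Γ →* Matrix ι ι k} {ψ : Matrix ι ι Ω}

/-- The monoid generated by the weak Hodge cocharacters. -/
def HM (ρ : Γ →* Matrix ι ι k) (ψ : Matrix ι ι Ω) : Submonoid (Matrix ι ι Ω) :=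
  Submonoid.closure {x : Matrix ι ι Ω |
    ∃ (p : Matrix ι ι Ω) (c : Ω), WeakHodge ρ ψ p ∧ c ≠ 0 ∧ x = 1 - p + c • p}

/-- The theorem of Pink for finitely many polynomials. -/
theorem vanish_family (hP : HodgeGenerated ρ ψ) {α : Type} [Finite α]
    (f : α → MvPolynomial (ι × ι) Ω) (h : ∀ x ∈ HM ρ ψ, ∀ a, ev x (f a) = 0) :
    ∃ Δ : Subgroup Γ, Δ.FiniteIndex ∧ ∀ s ∈ Δ, ∀ a,
      ev ((ρ s).map (algebraMap k Ω)) (f a) = 0 := by
  have h1 : ∀ a, ∃ Δ : Subgroup Γ, Δ.FiniteIndex ∧ ∀ s ∈ Δ,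
      ev ((ρ s).map (algebraMap k Ω)) (f a) = 0 := fun a => hP (f a) fun x hx => h x hx a
  choose Δ hΔ hf using h1
  refine ⟨⨅ a, Δ a, Subgroup.finiteIndex_iInf fun a => hΔ a, fun s hs a => ?_⟩
  exact hf a s (Subgroup.mem_iInf.1 hs a)

/-- A polynomial that vanishes on the image of a subgroup of finite index vanishes at the values
of the weak Hodge cocharacters. -/
theorem ev_wh {p : Matrix ι ι Ω} (hp : WeakHodge ρ ψ p) {f : MvPolynomial (ι × ι) Ω}
    (hf : Vanishes ρ f) {c : Ω} (hc : c ≠ 0) : ev (1 - p + c • p) f = 0 := hp.2.2 c hc f hf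

theorem comm_two [CharZero Ω] {z p : Matrix ι ι Ω}
    (h : z * (1 - p + (2 : Ω) • p) = (1 - p + (2 : Ω) • p) * z) : z * p = p * z := by
  have h1 : (1 : Matrix ι ι Ω) - p + (2 : Ω) • p = 1 + p := by
    rw [two_smul]
    abel
  rw [h1, mul_add, add_mul, mul_one, one_mul] at h
  exact add_left_cancel h

/-- A matrix that commutes with a subgroup of finite index commutes with the weak Hodge
idempotents. -/
theorem comm_wh [CharZero Ω] {z : Matrix ι ι Ω} (hz : ∃ Δ : Subgroup Γ, Δ.FiniteIndex ∧ ∀ s ∈ Δ,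
    z * (ρ s).map (algebraMap k Ω) = (ρ s).map (algebraMap k Ω) * z) {p : Matrix ι ι Ω}
    (hp : WeakHodge ρ ψ p) : z * p = p * z := by
  obtain ⟨Δ, hΔ, h⟩ := hz
  apply comm_two
  rw [← sub_eq_zero]
  ext i j
  rw [← ev_PC, Matrix.zero_apply]
  refine ev_wh hp ⟨Δ, hΔ, fun s hs => ?_⟩ two_ne_zero
  show ev _ (PC z i j) = 0
  rw [ev_PC, h s hs, sub_self, Matrix.zero_apply]

/-- A matrix that commutes with the weak Hodge idempotents commutes with a subgroup of finite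
index. -/
theorem comm_of_wh (hP : HodgeGenerated ρ ψ) {z : Matrix ι ι Ω}
    (hz : ∀ p, WeakHodge ρ ψ p → z * p = p * z) : ∃ Δ : Subgroup Γ, Δ.FiniteIndex ∧ ∀ s ∈ Δ,
    z * (ρ s).map (algebraMap k Ω) = (ρ s).map (algebraMap k Ω) * z := by
  have h1 : ∀ x ∈ HM ρ ψ, z * x = x * z := by
    intro x hx
    induction hx using Submonoid.closure_induction with
    | mem x hx =>
      obtain ⟨p, c, hp, -, rfl⟩ := hx
      rw [mul_add, add_mul, mul_sub, sub_mul, mul_one, one_mul, mul_smul_comm, smul_mul_assoc,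
        hz p hp]
    | one => rw [mul_one, one_mul]
    | mul x y _ _ hx hy => rw [← mul_assoc, hx, mul_assoc, hy, mul_assoc]
  obtain ⟨Δ, hΔ, h⟩ := vanish_family hP (fun a : ι × ι => PC z a.1 a.2) (by
    intro x hx a
    rw [ev_PC, h1 x hx, sub_self, Matrix.zero_apply])
  refine ⟨Δ, hΔ, fun s hs => ?_⟩
  rw [← sub_eq_zero]
  ext i j
  rw [← ev_PC, Matrix.zero_apply]
  exact h s hs (i, j)

/-- A tensor that commutes with the weak Hodge derivations commutes with a subgroup of finite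
index. -/
theorem commT_of_wh [CharZero Ω] (hP : HodgeGenerated ρ ψ) {n : ℕ}
    {T : Matrix (Fin n → ι) (Fin n → ι) Ω}
    (hT : ∀ p, WeakHodge ρ ψ p → T * Dn n p = Dn n p * T) :
    ∃ Δ : Subgroup Γ, Δ.FiniteIndex ∧ ∀ s ∈ Δ,
    T * tpow n ((ρ s).map (algebraMap k Ω)) = tpow n ((ρ s).map (algebraMap k Ω)) * T := by
  have h1 : ∀ x ∈ HM ρ ψ, T * tpow n x = tpow n x * T := by
    intro x hx
    induction hx using Submonoid.closure_induction with
    | mem x hx =>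
      obtain ⟨p, c, hp, -, rfl⟩ := hx
      exact comm_tpow_of_Dn T hp.1 (hT p hp) c
    | one => rw [tpow_one, mul_one, one_mul]
    | mul x y _ _ hx hy => rw [tpow_mul, ← mul_assoc, hx, mul_assoc, hy, mul_assoc]
  obtain ⟨Δ, hΔ, h⟩ := vanish_family hP (fun a : (Fin n → ι) × (Fin n → ι) => PT T a.1 a.2) (by
    intro x hx a
    rw [ev_PT, h1 x hx, sub_self, Matrix.zero_apply])
  refine ⟨Δ, hΔ, fun s hs => ?_⟩
  rw [← sub_eq_zero]
  ext i j
  rw [← ev_PT, Matrix.zero_apply]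
  exact h s hs (i, j)

/-- Complete reducibility under the weak Hodge idempotents. -/
theorem semi_wh [CharZero k] [CharZero Ω] [Algebra.IsAlgebraic k Ω] (hss : SemiM ρ)
    (hP : HodgeGenerated ρ ψ)
    (U : Submodule Ω (ι → Ω)) (hU : ∀ p, WeakHodge ρ ψ p → ∀ u ∈ U, p *ᵥ u ∈ U) :
    ∃ U' : Submodule Ω (ι → Ω), (∀ p, WeakHodge ρ ψ p → ∀ u ∈ U', p *ᵥ u ∈ U') ∧
      IsCompl U U' := by
  -- a projection
  obtain ⟨C, hC⟩ := exists_isCompl U
  let Q0 : Matrix ι ι Ω := LinearMap.toMatrix' (U.subtype ∘ₗ Submodule.projectionOnto U C hC)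
  have hQ0 : ∀ v, Q0 *ᵥ v = (Submodule.projectionOnto U C hC v : ι → Ω) := by
    intro v
    rw [← Matrix.toLin'_apply, Matrix.toLin'_toMatrix']
    rfl
  have hQ1 : ∀ v, Q0 *ᵥ v ∈ U := by
    intro v
    rw [hQ0]
    exact (Submodule.projectionOnto U C hC v).2
  have hQ2 : ∀ u ∈ U, Q0 *ᵥ u = u := by
    intro u hu
    rw [hQ0]
    have := Submodule.projectionOnto_apply_left hC ⟨u, hu⟩
    rw [this]
  have hst : ∀ x ∈ HM ρ ψ, ∀ u ∈ U, x *ᵥ u ∈ U := by
    intro x hx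
    induction hx using Submonoid.closure_induction with
    | mem x hx =>
      obtain ⟨p, c, hp, -, rfl⟩ := hx
      intro u hu
      rw [Matrix.add_mulVec, Matrix.sub_mulVec, Matrix.one_mulVec, Matrix.smul_mulVec]
      exact U.add_mem (U.sub_mem hu (hU p hp u hu)) (U.smul_mem _ (hU p hp u hu))
    | one =>
      intro u hu
      rwa [Matrix.one_mulVec]
    | mul x y _ _ hx hy =>
      intro u hu
      rw [← Matrix.mulVec_mulVec]
      exact hx _ (hy u hu)
  have hzero : ∀ x : Matrix ι ι Ω, (1 - Q0) * x * Q0 = 0 ↔ ∀ u ∈ U, x *ᵥ u ∈ U := by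
    intro x
    constructor
    · intro h u hu
      have h1 : ((1 - Q0) * x * Q0) *ᵥ u = 0 := by rw [h, Matrix.zero_mulVec]
      rw [← Matrix.mulVec_mulVec, hQ2 u hu, ← Matrix.mulVec_mulVec, Matrix.sub_mulVec,
        Matrix.one_mulVec, sub_eq_zero] at h1
      rw [h1]
      exact hQ1 _
    · intro h
      apply Matrix.toLin'.injective
      rw [map_zero]
      apply LinearMap.ext
      intro v
      rw [Matrix.toLin'_apply, ← Matrix.mulVec_mulVec, ← Matrix.mulVec_mulVec,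
        Matrix.sub_mulVec, Matrix.one_mulVec, hQ2 _ (h _ (hQ1 v)), sub_self,
        LinearMap.zero_apply]
  obtain ⟨Δ, hΔ, h⟩ := vanish_family hP (fun a : ι × ι => PB (1 - Q0) Q0 a.1 a.2) (by
    intro x hx a
    rw [ev_PB, (hzero x).2 (hst x hx), Matrix.zero_apply])
  have hstΔ : ∀ s ∈ Δ, ∀ u ∈ U, (ρ s).map (algebraMap k Ω) *ᵥ u ∈ U := by
    intro s hs
    rw [← hzero]
    ext i j
    rw [← ev_PB, Matrix.zero_apply]
    exact h s hs (i, j)
  obtain ⟨P, hP1, hP2, hP3⟩ := exists_proj_matrix (Ω := Ω) (ρ '' (Δ : Set Γ)) (by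
    intro U hU
    obtain ⟨U', h1, h2⟩ := hss Δ hΔ U (fun s hs u hu => hU _ ⟨s, hs, rfl⟩ u hu)
    refine ⟨U', ?_, h2⟩
    rintro _ ⟨s, hs, rfl⟩ u hu
    exact h1 s hs u hu) U (by
    rintro _ ⟨s, hs, rfl⟩ u hu
    exact hstΔ s hs u hu)
  have hPp : ∀ p, WeakHodge ρ ψ p → P * p = p * P := fun p hp =>
    comm_wh ⟨Δ, hΔ, fun s hs => hP3 _ ⟨s, hs, rfl⟩⟩ hp
  refine ⟨LinearMap.ker (Matrix.toLin' P), fun p hp u hu => ?_, ?_⟩
  · rw [LinearMap.mem_ker, Matrix.toLin'_apply] at hu ⊢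
    rw [Matrix.mulVec_mulVec, hPp p hp, ← Matrix.mulVec_mulVec, hu, Matrix.mulVec_zero]
  · constructor
    · rw [Submodule.disjoint_def]
      intro x hx hx'
      rw [LinearMap.mem_ker, Matrix.toLin'_apply, hP2 x hx] at hx'
      exact hx'
    · rw [codisjoint_iff, eq_top_iff]
      intro v _
      rw [Submodule.mem_sup]
      refine ⟨P *ᵥ v, hP1 v, v - P *ᵥ v, ?_, by abel⟩
      rw [LinearMap.mem_ker, Matrix.toLin'_apply, Matrix.mulVec_sub, hP2 _ (hP1 v), sub_self]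

end pink

end

end Pool.Agent.L5helper27.MM
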