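import Mathlib
import Pool.Agent.L5helper27.MM.Core2
import Pool.Agent.L5helper27.MM.Falt

/-!
# The criterion
-/

set_option linter.unusedSectionVars false

open Module MvPolynomial Matrix

namespace Pool.Agent.L5helper27.MM

open Pool.Agent.W528.ZC

noncomputable section

section maps

variable {ι : Type} [Fintype ι] [DecidableEq ι] {n : ℕ}

theorem Dn_entry {R : Type} [CommRing R] (X : Matrix ι ι R) (i j : Fin n → ι) :
    Dn n X i j = ∑ k, if ∀ l ∈ Finset.univ.erase k, i l = j l then X (i k) (j k) else 0 := by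
  rw [Dn_apply, Matrix.sum_apply]
  refine Finset.sum_congr rfl fun k _ => ?_
  rw [slot_apply, tens_apply, ← Finset.mul_prod_erase _ _ (Finset.mem_univ k),
    Function.update_self]
  have h1 : ∀ l ∈ Finset.univ.erase k, (Function.update (1 : Fin n → Matrix ι ι R) k X l)
      (i l) (j l) = if i l = j l then 1 else 0 := by
    intro l hl
    rw [Function.update_of_ne (Finset.ne_of_mem_erase hl), Pi.one_apply, Matrix.one_apply]
  rw [Finset.prod_congr rfl h1, Finset.prod_ite_zero]
  split_ifs with h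
  · rw [Finset.prod_const_one, mul_one]
  · rw [mul_zero]

theorem Dn_map {R R' : Type} [CommRing R] [CommRing R'] (φ : R →+ R') (X : Matrix ι ι R) :
    (Dn n X).map φ = Dn n (X.map φ) := by
  ext i j
  rw [Matrix.map_apply, Dn_entry, Dn_entry, map_sum]
  refine Finset.sum_congr rfl fun k _ => ?_
  split_ifs
  · rfl
  · exact map_zero φ

theorem tpow_map {R R' : Type} [CommRing R] [CommRing R'] (φ : R →+* R') (X : Matrix ι ι R) :
    (tpow n X).map φ = tpow n (X.map φ) := by
  ext i j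
  rw [Matrix.map_apply, tpow_apply, tpow_apply, map_prod]
  rfl

theorem AltM_map {R R' : Type} [CommRing R] [CommRing R'] (φ : R →+ R')
    {T : Matrix (Fin n → ι) (Fin n → ι) R} (hT : AltM T) : AltM (T.map φ) := by
  intro σ i j
  have h : ∀ (z : ℤ) (x : R), φ ((z : R) * x) = (z : R') * φ x := by
    intro z x
    rw [← zsmul_eq_mul, map_zsmul, zsmul_eq_mul]
  rw [Matrix.map_apply, Matrix.map_apply, Matrix.map_apply, (hT σ i j).1, (hT σ i j).2, h]
  exact ⟨rfl, rfl⟩

theorem alg_alg {k Ω : Type} [Field k] [CharZero k] [Field Ω] [CharZero Ω] [Algebra k Ω] (q : ℚ) :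
    algebraMap k Ω (algebraMap ℚ k q) = algebraMap ℚ Ω q := by
  rw [eq_ratCast, eq_ratCast, map_ratCast]

theorem map_map_alg {k Ω : Type} [Field k] [CharZero k] [Field Ω] [CharZero Ω] [Algebra k Ω]
    {m o : Type} (M : Matrix m o ℚ) :
    (M.map (algebraMap ℚ k)).map (algebraMap k Ω) = M.map (algebraMap ℚ Ω) := by
  ext i j
  exact alg_alg (M i j)

/-- A matrix is zero if all its components are. -/
theorem eq_zero_of_comp {k Ω : Type} [Field k] [Field Ω] [Algebra k Ω] {m o : Type} [Fintype m]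
    [Fintype o] {M : Matrix m o Ω} (h : ∀ c : Ω →ₗ[k] k, M.map c = 0) : M = 0 := by
  have h1 := mat_expand k M
  have h2 : Submodule.span Ω {Q : Matrix m o Ω |
      ∃ c : Ω →ₗ[k] k, Q = (M.map c).map (algebraMap k Ω)} ≤ ⊥ := by
    rw [Submodule.span_le]
    rintro _ ⟨c, rfl⟩
    rw [h c, SetLike.mem_coe, Submodule.mem_bot]
    ext i j
    rw [Matrix.map_apply, Matrix.zero_apply, Matrix.zero_apply, map_zero]
  exact (Submodule.mem_bot _).1 (h2 h1)

/-- The span over `F` of a set of rational matrices. -/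
def SM (F : Type) [Field F] [CharZero F] {m o : Type} (S : Set (Matrix m o ℚ)) :
    Submodule F (Matrix m o F) :=
  Submodule.span F {x | ∃ M : Matrix m o ℚ, M ∈ S ∧ x = M.map (algebraMap ℚ F)}

theorem SM_of_comp {k Ω : Type} [Field k] [CharZero k] [Field Ω] [CharZero Ω] [Algebra k Ω]
    {m o : Type} [Fintype m] [Fintype o] {S : Set (Matrix m o ℚ)} {x : Matrix m o Ω}
    (hx : ∀ c : Ω →ₗ[k] k, x.map c ∈ SM k S) : x ∈ SM Ω S := by
  refine (Submodule.span_le.2 ?_ : _ ≤ SM Ω S) (mat_expand k x)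
  rintro _ ⟨c, rfl⟩
  rw [SetLike.mem_coe]
  have h3 := hx c
  generalize x.map c = y at h3 ⊢
  induction h3 using Submodule.span_induction with
  | mem y hy =>
    obtain ⟨M, hM, rfl⟩ := hy
    rw [map_map_alg]
    exact Submodule.subset_span ⟨M, hM, rfl⟩
  | zero =>
    rw [Matrix.map_zero _ (map_zero _)]
    exact Submodule.zero_mem _
  | add x y _ _ hx hy =>
    rw [Matrix.map_add _ (map_add _)]
    exact Submodule.add_mem _ hx hy
  | smul a x _ hx =>
    have h4 : (a • x).map (algebraMap k Ω) = algebraMap k Ω a • x.map (algebraMap k Ω) := by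
      ext i j
      rw [Matrix.map_apply, Matrix.smul_apply, Matrix.smul_apply, Matrix.map_apply, smul_eq_mul,
        smul_eq_mul, map_mul]
    rw [h4]
    exact Submodule.smul_mem _ _ hx

theorem SM_comp {F : Type} [Field F] [CharZero F] {m o : Type} {S : Set (Matrix m o ℚ)}
    {x : Matrix m o F} (hx : x ∈ SM F S) : ∀ c : F →ₗ[ℚ] ℚ, x.map c ∈ Submodule.span ℚ S := by
  induction hx using Submodule.span_induction with
  | mem x hx =>
    obtain ⟨M, hM, rfl⟩ := hx
    intro c
    have h1 : (M.map (algebraMap ℚ F)).map c = c 1 • M := by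
      ext i j
      rw [Matrix.map_apply, Matrix.map_apply, Matrix.smul_apply,
        ← mul_one (algebraMap ℚ F (M i j)), ← Algebra.smul_def, map_smul, smul_eq_mul,
        smul_eq_mul, mul_comm]
    rw [h1]
    exact Submodule.smul_mem _ _ (Submodule.subset_span hM)
  | zero =>
    intro c
    rw [Matrix.map_zero _ (map_zero c)]
    exact Submodule.zero_mem _
  | add x y _ _ hx hy =>
    intro c
    rw [Matrix.map_add _ (map_add c)]
    exact Submodule.add_mem _ (hx c) (hy c)
  | smul a x _ hx =>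
    intro c
    exact hx (c.comp (LinearMap.mulLeft ℚ a))

end maps

section hodge

variable {ι : Type} [Fintype ι] [DecidableEq ι] {n : ℕ}

/-- The rational infinitesimal symmetries of the form, of the endomorphisms and of the
endomorphisms of the Hodge structure on the exterior power. -/
def hQ (n : ℕ) (ψ : Matrix ι ι ℚ) (J : Matrix ι ι ℝ) : Set (Matrix ι ι ℚ) :=
  {X | X.transpose * ψ + ψ * X = 0 ∧
    (∀ e : Matrix ι ι ℚ, mapQ ℝ e * J = J * mapQ ℝ e → X * e = e * X) ∧
    ∀ T : Matrix (Fin n → ι) (Fin n → ι) ℚ, HodgeEnd n J T → T * Dn n X = Dn n X * T}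

/-- The components of `J`. -/
theorem J_comp {ψ : Matrix ι ι ℚ} {J : Matrix ι ι ℝ} (hJ : J * J = -1)
    (hJψ : J.transpose * mapQ ℝ ψ * J = mapQ ℝ ψ) (c : ℝ →ₗ[ℚ] ℚ) : J.map c ∈ hQ n ψ J := by
  have h0 : (0 : Matrix ι ι ℝ).map c = 0 := by
    ext i j
    exact map_zero c
  refine ⟨?_, ?_, ?_⟩
  · have h1 : J.transpose * mapQ ℝ ψ + mapQ ℝ ψ * J = 0 := by
      have h2 : J.transpose * mapQ ℝ ψ * J * J = mapQ ℝ ψ * J := by rw [hJψ]
      rw [Matrix.mul_assoc, hJ, Matrix.mul_neg, Matrix.mul_one] at h2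
      rw [← h2, add_neg_cancel]
    have h3 : (J.map c).transpose * ψ + ψ * J.map c =
        (J.transpose * mapQ ℝ ψ + mapQ ℝ ψ * J).map c := by
      rw [Matrix.map_add _ (map_add c)]
      unfold mapQ
      rw [map_mul_right, map_mul_left, Matrix.transpose_map]
    rw [h3, h1, h0]
  · intro e he
    have h1 : J.map c * e = (J * mapQ ℝ e).map c := (map_mul_right c J e).symm
    have h2 : e * J.map c = (mapQ ℝ e * J).map c := (map_mul_left c J e).symm
    rw [h1, h2, he]
  · intro T hT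
    have h1 : T.map (algebraMap ℚ ℝ) * Dn n J = Dn n J * T.map (algebraMap ℚ ℝ) := by
      apply comm_Dn_of_tpow
      have h2 : {c : ℝ | T.map (algebraMap ℚ ℝ) * tpow n (c • J + 1) =
          tpow n (c • J + 1) * T.map (algebraMap ℚ ℝ)} = Set.univ := by
        ext b
        simp only [Set.mem_ofPred_eq, Set.mem_univ, iff_true]
        have h3 := hT.2 1 b (Or.inl one_ne_zero)
        rwa [one_smul, add_comm] at h3
      rw [h2]
      exact Set.infinite_univ
    have h2 : Dn n (J.map c) = (Dn n J).map c := (Dn_map c.toAddMonoidHom J).symm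
    rw [h2, ← map_mul_left, ← map_mul_right, h1]

/-- The idempotent for the eigenvalue `i`. -/
def pa (Z : Matrix ι ι ℂ) : Matrix ι ι ℂ :=
  (1 / 2 : ℂ) • (1 : Matrix ι ι ℂ) - (Complex.I / 2) • Z

/-- The idempotent for the eigenvalue `-i`. -/
def pb (Z : Matrix ι ι ℂ) : Matrix ι ι ℂ :=
  (1 / 2 : ℂ) • (1 : Matrix ι ι ℂ) + (Complex.I / 2) • Z

theorem pa_pa {Z : Matrix ι ι ℂ} (hZ : Z * Z = -1) : pa Z * pa Z = pa Z := by
  have hI : Complex.I * Complex.I = -1 := Complex.I_mul_I
  unfold pa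
  simp only [mul_sub, sub_mul, smul_mul_assoc, mul_smul_comm, one_mul, mul_one, hZ, smul_smul,
    smul_neg, smul_sub]
  rw [show Complex.I / 2 * (Complex.I / 2) = (-1 / 4 : ℂ) by linear_combination hI / 4]
  module

theorem pb_pb {Z : Matrix ι ι ℂ} (hZ : Z * Z = -1) : pb Z * pb Z = pb Z := by
  have hI : Complex.I * Complex.I = -1 := Complex.I_mul_I
  unfold pb
  simp only [mul_add, add_mul, smul_mul_assoc, mul_smul_comm, one_mul, mul_one, hZ, smul_smul,
    smul_neg, smul_add]
  rw [show Complex.I / 2 * (Complex.I / 2) = (-1 / 4 : ℂ) by linear_combination hI / 4]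
  module

theorem one_sub_pa (Z : Matrix ι ι ℂ) : 1 - pa Z = pb Z := by
  unfold pa pb
  module

theorem one_sub_pb (Z : Matrix ι ι ℂ) : 1 - pb Z = pa Z := by
  unfold pa pb
  module

theorem ab_eq (Z : Matrix ι ι ℂ) (a b : ℂ) : a • (1 : Matrix ι ι ℂ) + b • Z =
    (a + b * Complex.I) • pa Z + (a - b * Complex.I) • pb Z := by
  have hI : Complex.I * Complex.I = -1 := Complex.I_mul_I
  unfold pa pb
  have h4 : (a + b * Complex.I) • ((1 / 2 : ℂ) • (1 : Matrix ι ι ℂ) - (Complex.I / 2) • Z) +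
      (a - b * Complex.I) • ((1 / 2 : ℂ) • (1 : Matrix ι ι ℂ) + (Complex.I / 2) • Z) =
      a • (1 : Matrix ι ι ℂ) + (-b * (Complex.I * Complex.I)) • Z := by
    module
  rw [h4, hI]
  congr 2
  ring

theorem ab_prod {Z : Matrix ι ι ℂ} (hZ : Z * Z = -1) (z w : ℂ) :
    z • pa Z + w • pb Z = (1 - pa Z + z • pa Z) * (1 - pb Z + w • pb Z) := by
  have h1 : pa Z * pb Z = 0 := by rw [← one_sub_pa, mul_sub, mul_one, pa_pa hZ, sub_self]
  have h2 : pb Z * pa Z = 0 := by rw [← one_sub_pb, mul_sub, mul_one, pb_pb hZ, sub_self]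
  rw [one_sub_pa, one_sub_pb]
  simp only [mul_add, add_mul, smul_mul_assoc, mul_smul_comm, pa_pa hZ, pb_pb hZ, h1, h2,
    smul_zero]
  module

theorem aeval_eq_ev {F : Type} [Field F] [CharZero F] (x : Matrix ι ι F)
    (r : MvPolynomial (ι × ι) ℚ) : aeval (fun p : ι × ι => x p.1 p.2) r =
      ev x (MvPolynomial.map (algebraMap ℚ F) r) := by
  unfold ev
  rw [MvPolynomial.aeval_map_algebraMap]

theorem map_neg_one {F F' : Type} [Field F] [Field F'] (φ : F →+* F') :
    (-1 : Matrix ι ι F).map φ = -1 := by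
  ext i j
  rw [Matrix.map_apply, Matrix.neg_apply, Matrix.neg_apply, map_neg, Matrix.one_apply,
    Matrix.one_apply]
  split_ifs
  · rw [map_one]
  · rw [map_zero]

end hodge

section main

variable {k : Type} [Field k] [CharZero k] {Ω : Type} [Field Ω] [CharZero Ω] [IsAlgClosed Ω]
  [Algebra k Ω] [Algebra.IsAlgebraic k Ω] {ι : Type} [Fintype ι] [DecidableEq ι] {n : ℕ}
  {Γ : Type} [Group Γ] {ψ : Matrix ι ι ℚ} {J : Matrix ι ι ℝ} {ρ : Γ →* Matrix ι ι k}
  {χ : Γ →* k}

theorem mem_HE {T : Matrix (Fin n → ι) (Fin n → ι) Ω} (hT : AltM T)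
    (hET : EndTate n ρ J)
    (h : ∃ Δ : Subgroup Γ, Δ.FiniteIndex ∧ ∀ s ∈ Δ,
      T * tpow n ((ρ s).map (algebraMap k Ω)) = tpow n ((ρ s).map (algebraMap k Ω)) * T) :
    T ∈ SM Ω {T₀ | HodgeEnd n J T₀} := by
  obtain ⟨Δ, hΔ, h⟩ := h
  refine SM_of_comp (k := k) fun c => ?_
  refine hET _ ⟨AltM_map c.toAddMonoidHom hT, Δ, hΔ, fun s hs => ?_⟩
  rw [← map_mul_right, ← map_mul_left, tpow_map (algebraMap k Ω), h s hs]

/-- The infinitesimal symmetries over `Ω`. -/
def hO (Ω : Type) [Field Ω] [CharZero Ω] (n : ℕ) (ψ : Matrix ι ι ℚ) (J : Matrix ι ι ℝ) :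
    Submodule Ω (Matrix ι ι Ω) := SM Ω (hQ n ψ J)

theorem coreHyp (hcard : Fintype.card ι = 2 * n) (hψ : IsUnit ψ)
    (hIV : ∀ z : Matrix ι ι ℚ, mapQ ℝ z * J = J * mapQ ℝ z →
      (∀ e : Matrix ι ι ℚ, mapQ ℝ e * J = J * mapQ ℝ e → z * e = e * z) →
      z.transpose * ψ = ψ * z)
    (hK : Known Ω ρ χ (mapQ k ψ) (mapQ k '' {e | mapQ ℝ e * J = J * mapQ ℝ e}))
    (hET : EndTate n ρ J) :
    CoreHyp n (mapQ Ω ψ) {p | WeakHodge ρ (mapQ Ω ψ) p}
      (mapQ Ω '' {e | mapQ ℝ e * J = J * mapQ ℝ e}) (hO Ω n ψ J) := by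
  have hψΩ : (mapQ k ψ).map (algebraMap k Ω) = mapQ Ω ψ := map_map_alg ψ
  have hpink : HodgeGenerated ρ (mapQ Ω ψ) := by
    rw [← hψΩ]
    exact hK.pink
  refine
    { card := hcard
      unit := ?_
      idem := fun p hp => hp.1
      form := fun p hp => hp.2.1
      ne := ?_
      commE := ?_
      falt := ?_
      semi := ?_
      hform := ?_
      hE := ?_
      hT := ?_ }
  · obtain ⟨u, rfl⟩ := hψ
    exact ⟨Units.map ((algebraMap ℚ Ω).mapMatrix : Matrix ι ι ℚ →+* Matrix ι ι Ω).toMonoidHom u,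
      rfl⟩
  · obtain ⟨p, hp⟩ := hK.hodgeTate
    rw [hψΩ] at hp
    exact ⟨p, hp⟩
  · rintro p hp _ ⟨e, he, rfl⟩
    obtain ⟨Δ, hΔ, h⟩ := hK.endo
    refine (comm_wh ⟨Δ, hΔ, fun s hs => ?_⟩ hp).symm
    have h1 := h s hs _ ⟨e, he, rfl⟩
    have h2 := congrArg (fun M : Matrix ι ι k => M.map (algebraMap k Ω)) h1
    simp only [Matrix.map_mul] at h2
    have h3 : (mapQ k e).map (algebraMap k Ω) = mapQ Ω e := map_map_alg e
    rw [h3] at h2
    exact h2
  · intro z hz hzE
    obtain ⟨Δ, hΔ, h⟩ := comm_of_wh hpink hz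
    -- `z` is a combination of endomorphisms
    let E : Submodule ℚ (Matrix ι ι ℚ) :=
      { carrier := {e | mapQ ℝ e * J = J * mapQ ℝ e}
        zero_mem' := by
          show mapQ ℝ 0 * J = J * mapQ ℝ 0
          unfold mapQ
          rw [Matrix.map_zero _ (map_zero _), zero_mul, mul_zero]
        add_mem' := fun {a b} (ha : mapQ ℝ a * J = J * mapQ ℝ a)
            (hb : mapQ ℝ b * J = J * mapQ ℝ b) => by
          show mapQ ℝ (a + b) * J = J * mapQ ℝ (a + b)
          unfold mapQ at *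
          rw [Matrix.map_add _ (map_add _), add_mul, mul_add, ha, hb]
        smul_mem' := fun c a (ha : mapQ ℝ a * J = J * mapQ ℝ a) => by
          show mapQ ℝ (c • a) * J = J * mapQ ℝ (c • a)
          have h4 : mapQ ℝ (c • a) = (algebraMap ℚ ℝ c) • mapQ ℝ a := by
            ext i j
            unfold mapQ
            rw [Matrix.map_apply, Matrix.smul_apply, Matrix.smul_apply, Matrix.map_apply,
              smul_eq_mul, smul_eq_mul, map_mul]
          rw [h4, smul_mul_assoc, mul_smul_comm, ha] }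
    have h1 : z ∈ SM Ω (E : Set (Matrix ι ι ℚ)) := by
      refine SM_of_comp (k := k) fun c => ?_
      have h2 := hK.comm Δ hΔ (z.map c) (fun s hs => by
        rw [← map_mul_right, ← map_mul_left, h s hs])
      refine (Submodule.span_le.2 ?_ : _ ≤ SM k (E : Set (Matrix ι ι ℚ))) h2
      rintro _ ⟨e, he, rfl⟩
      exact Submodule.subset_span ⟨e, he, rfl⟩
    have h2 : ∀ c : Ω →ₗ[ℚ] ℚ, mapQ ℝ (z.map c) * J = J * mapQ ℝ (z.map c) := by
      intro c
      have h3 := SM_comp h1 c
      rw [Submodule.span_eq] at h3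
      exact h3
    rw [← sub_eq_zero]
    refine eq_zero_of_comp (k := ℚ) fun c => ?_
    have h3 := hIV (z.map c) (h2 c) (by
      intro e he
      have h4 : z.map c * e = (z * mapQ Ω e).map c := (map_mul_right c z e).symm
      have h5 : e * z.map c = (mapQ Ω e * z).map c := (map_mul_left c z e).symm
      rw [h4, h5, hzE _ ⟨e, he, rfl⟩])
    rw [Matrix.map_sub _ (map_sub c)]
    unfold mapQ
    rw [map_mul_right, map_mul_left]
    exact sub_eq_zero.2 h3
  · intro U hU
    exact semi_wh hK.semi hpink U hU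
  · intro X hX
    induction hX using Submodule.span_induction with
    | mem x hx =>
      obtain ⟨X₀, hX₀, rfl⟩ := hx
      have h1 := congrArg (fun M : Matrix ι ι ℚ => M.map (algebraMap ℚ Ω)) hX₀.1
      simp only [Matrix.map_add _ (map_add (algebraMap ℚ Ω)), Matrix.map_mul,
        Matrix.map_zero _ (map_zero (algebraMap ℚ Ω))] at h1
      exact h1
    | zero => simp
    | add x y _ _ hx hy =>
      rw [Matrix.transpose_add, Matrix.add_mul, Matrix.mul_add,
        show x.transpose * mapQ Ω ψ + y.transpose * mapQ Ω ψ + (mapQ Ω ψ * x + mapQ Ω ψ * y) =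
          (x.transpose * mapQ Ω ψ + mapQ Ω ψ * x) + (y.transpose * mapQ Ω ψ + mapQ Ω ψ * y) by
          abel, hx, hy, add_zero]
    | smul a x _ hx =>
      rw [Matrix.transpose_smul, Matrix.smul_mul, Matrix.mul_smul, ← smul_add, hx, smul_zero]
  · rintro X hX _ ⟨e, he, rfl⟩
    induction hX using Submodule.span_induction with
    | mem x hx =>
      obtain ⟨X₀, hX₀, rfl⟩ := hx
      have h1 := congrArg (fun M : Matrix ι ι ℚ => M.map (algebraMap ℚ Ω)) (hX₀.2.1 e he)
      simp only [Matrix.map_mul] at h1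
      exact h1
    | zero => rw [zero_mul, mul_zero]
    | add x y _ _ hx hy => rw [add_mul, mul_add, hx, hy]
    | smul a x _ hx => rw [smul_mul_assoc, mul_smul_comm, hx]
  · intro T hT hTp X hX
    have hTH := mem_HE hT hET (commT_of_wh hpink hTp)
    clear hTp hT
    induction hX using Submodule.span_induction with
    | mem x hx =>
      obtain ⟨X₀, hX₀, rfl⟩ := hx
      induction hTH using Submodule.span_induction with
      | mem T' hT' =>
        obtain ⟨T₀, hT₀, rfl⟩ := hT'
        have h1 := congrArg (fun M : Matrix (Fin n → ι) (Fin n → ι) ℚ => M.map (algebraMap ℚ Ω))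
          (hX₀.2.2 T₀ hT₀)
        simp only [Matrix.map_mul] at h1
        have h2 : (Dn n X₀).map (algebraMap ℚ Ω) = Dn n (mapQ Ω X₀) :=
          Dn_map (algebraMap ℚ Ω).toAddMonoidHom X₀
        rw [h2] at h1
        exact h1
      | zero => rw [zero_mul, mul_zero]
      | add x y _ _ hx hy => rw [add_mul, mul_add, hx, hy]
      | smul a x _ hx => rw [smul_mul_assoc, mul_smul_comm, hx]
    | zero => rw [map_zero, zero_mul, mul_zero]
    | add x y _ _ hx hy => rw [map_add, mul_add, add_mul, hx, hy]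
    | smul a x _ hx => rw [map_smul, smul_mul_assoc, mul_smul_comm, hx]

end main

end

end Pool.Agent.L5helper27.MM
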