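import Mathlib
import Pool.Agent.L5helper27.MM.Fin

/-!
# The criterion: end of the proof
-/

set_option linter.unusedSectionVars false

open Module MvPolynomial Matrix

namespace Pool.Agent.L5helper27.MM

open Pool.Agent.W528.ZC

noncomputable section

section main

variable {k : Type} [Field k] [CharZero k] {Ω : Type} [Field Ω] [CharZero Ω] [IsAlgClosed Ω]
  [Algebra k Ω] [Algebra.IsAlgebraic k Ω] {ι : Type} [Fintype ι] [DecidableEq ι] {n : ℕ}
  {Γ : Type} [Group Γ] {ψ : Matrix ι ι ℚ} {J : Matrix ι ι ℝ} {ρ : Γ →* Matrix ι ι k}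
  {χ : Γ →* k}

theorem mem_I0_iff {f : MvPolynomial (ι × ι) Ω} : f ∈ I0 (repM ρ Ω) ↔ Vanishes ρ f := by
  rw [mem_I0]
  unfold Vanishes
  have h : ∀ g, toM (repM ρ Ω g) = (ρ g).map (algebraMap k Ω) := fun g =>
    LinearMap.toMatrix'_toLin' _
  simp only [h]
  rfl

/-- The Lie algebra of the connected monodromy group, as matrices. -/
def Lm (Ω : Type) [Field Ω] [Algebra k Ω] (ρ : Γ →* Matrix ι ι k) :
    Submodule Ω (Matrix ι ι Ω) where
  carrier := {X | ∀ f : MvPolynomial (ι × ι) Ω, f ∈ I0 (repM ρ Ω) → D X f ∈ I0 (repM ρ Ω)}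
  zero_mem' := fun f _ => by
    have h1 := D_smul (0 : Ω) (1 : Matrix ι ι Ω) f
    rw [zero_smul, zero_smul] at h1
    rw [h1]
    exact Submodule.zero_mem _
  add_mem' := fun {a b} ha hb f hf => by
    rw [D_add]
    exact Submodule.add_mem _ (ha f hf) (hb f hf)
  smul_mem' := fun c a ha f hf => by
    rw [D_smul]
    exact Submodule.smul_mem _ _ (ha f hf)

theorem Lm_br : ∀ x ∈ Lm Ω ρ, ∀ y ∈ Lm Ω ρ, x * y - y * x ∈ Lm Ω ρ := by
  intro x hx y hy f hf
  rw [← hBR Ω ι x y]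
  exact Submodule.sub_mem _ (hx _ (hy _ hf)) (hy _ (hx _ hf))

theorem Lm_wh {ψ' : Matrix ι ι Ω} {p : Matrix ι ι Ω} (hp : WeakHodge ρ ψ' p) : p ∈ Lm Ω ρ := by
  intro f hf
  refine hID Ω ι p hp.1 (I0 (repM ρ Ω)) f ?_
  refine Set.Infinite.mono (s := {c : Ω | c ≠ 0}) ?_ ?_
  · intro c hc
    have hInZ : InZ (repM ρ Ω) (Matrix.toLin' (1 - p + c • p)) := by
      intro g hg
      have h1 : toM (Matrix.toLin' (1 - p + c • p)) = 1 - p + c • p :=
        LinearMap.toMatrix'_toLin' _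
      rw [h1]
      exact hp.2.2 c hc g (mem_I0_iff.1 hg)
    have h2 := (InZ_iff.1 hInZ) f hf
    have h1 : toM (Matrix.toLin' (1 - p + c • p)) = 1 - p + c • p :=
      LinearMap.toMatrix'_toLin' _
    rw [h1] at h2
    exact h2
  · exact (Set.finite_singleton (0 : Ω)).infinite_compl

/-- The symmetries are in the Lie algebra of the connected monodromy group. -/
theorem hO_le (hcard : Fintype.card ι = 2 * n) (hψ : IsUnit ψ)
    (hIV : ∀ z : Matrix ι ι ℚ, mapQ ℝ z * J = J * mapQ ℝ z →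
      (∀ e : Matrix ι ι ℚ, mapQ ℝ e * J = J * mapQ ℝ e → z * e = e * z) →
      z.transpose * ψ = ψ * z)
    (hK : Known Ω ρ χ (mapQ k ψ) (mapQ k '' {e | mapQ ℝ e * J = J * mapQ ℝ e}))
    (hET : EndTate n ρ J) : hO Ω n ψ J ≤ Lm Ω ρ ∧ (1 : Matrix ι ι Ω) ∈ Lm Ω ρ := by
  have h1 := core (coreHyp (Ω := Ω) hcard hψ hIV hK hET)
  have h2 : lieGen {p | WeakHodge ρ (mapQ Ω ψ) p} ≤ Lm Ω ρ :=
    lieGen_le (fun p hp => Lm_wh hp) Lm_br
  exact ⟨h1.1.trans h2, h2 h1.2⟩

theorem one_mapQ (F : Type) [Field F] [CharZero F] :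
    (1 : Matrix ι ι ℚ).map (algebraMap ℚ F) = 1 :=
  Matrix.map_one _ (map_zero _) (map_one _)

/-- The components of the polynomials in the ideal of the connected monodromy group are in the
ideal of the Mumford-Tate group. -/
theorem comp_mem (hJ : J * J = -1) (hJψ : J.transpose * mapQ ℝ ψ * J = mapQ ℝ ψ)
    (h1 : hO Ω n ψ J ≤ Lm Ω ρ) (h2 : (1 : Matrix ι ι Ω) ∈ Lm Ω ρ)
    {f : MvPolynomial (ι × ι) Ω} (hf : Vanishes ρ f) (c : Ω →ₗ[ℚ] ℚ) :
    InMTIdeal J (cm c f) := by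
  -- stability under the rational elements
  have hX : ∀ X : Matrix ι ι ℚ, (X ∈ hQ n ψ J ∨ X = 1) → X.map (algebraMap ℚ Ω) ∈ Lm Ω ρ := by
    rintro X (hX | rfl)
    · exact h1 (Submodule.subset_span ⟨X, hX, rfl⟩)
    · rw [one_mapQ]
      exact h2
  let N : Submodule ℂ (MvPolynomial (ι × ι) ℂ) := Submodule.span ℂ
    {q | ∃ f ∈ I0 (repM ρ Ω), ∃ c : Ω →ₗ[ℚ] ℚ, q = MvPolynomial.map (algebraMap ℚ ℂ) (cm c f)}
  have hNX : ∀ X : Matrix ι ι ℚ, (X ∈ hQ n ψ J ∨ X = 1) → ∀ q ∈ N,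
      D (X.map (algebraMap ℚ ℂ)) q ∈ N := by
    intro X hX' q hq
    induction hq using Submodule.span_induction with
    | mem q hq =>
      obtain ⟨f, hf, c, rfl⟩ := hq
      rw [D_map, D_cm]
      exact Submodule.subset_span ⟨_, hX X hX' f hf, c, rfl⟩
    | zero =>
      rw [map_zero]
      exact Submodule.zero_mem _
    | add x y _ _ hx hy =>
      rw [map_add]
      exact Submodule.add_mem _ hx hy
    | smul a x _ hx =>
      rw [Derivation.map_smul]
      exact Submodule.smul_mem _ _ hx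
  have hNZ : ∀ Z : Matrix ι ι ℂ, Z ∈ SM ℂ {X | X ∈ hQ n ψ J ∨ X = 1} → ∀ q ∈ N, D Z q ∈ N := by
    intro Z hZ q hq
    induction hZ using Submodule.span_induction with
    | mem x hx =>
      obtain ⟨X, hX', rfl⟩ := hx
      exact hNX X hX' q hq
    | zero =>
      have h3 := D_smul (0 : ℂ) (1 : Matrix ι ι ℂ) q
      rw [zero_smul, zero_smul] at h3
      rw [h3]
      exact Submodule.zero_mem _
    | add x y _ _ hx hy =>
      rw [D_add]
      exact Submodule.add_mem _ hx hy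
    | smul a x _ hx =>
      rw [D_smul]
      exact Submodule.smul_mem _ _ hx
  have hN1 : ∀ q ∈ N, ev (1 : Matrix ι ι ℂ) q = 0 := by
    intro q hq
    induction hq using Submodule.span_induction with
    | mem q hq =>
      obtain ⟨f, hf, c, rfl⟩ := hq
      rw [← one_mapQ ℂ, ev_map, ev_cm, one_mapQ]
      obtain ⟨Δ, hΔ, h3⟩ := hf
      have h4 := h3 1 Δ.one_mem
      rw [map_one, toM_one] at h4
      rw [h4, map_zero, map_zero]
    | zero => rw [map_zero]
    | add x y _ _ hx hy => rw [map_add, hx, hy, add_zero]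
    | smul a x _ hx => rw [map_smul, hx, smul_zero]
  -- the conjugates of the complex structure
  let JC : Matrix ι ι ℂ := J.map (algebraMap ℝ ℂ)
  have hJS : ∀ σ : ℂ ≃+* ℂ, (J.map fun t : ℝ => σ (t : ℂ)) ∈ SM ℂ {X | X ∈ hQ n ψ J ∨ X = 1} := by
    intro σ
    refine SM_of_comp (k := ℚ) fun c => ?_
    let c' : ℂ →ₗ[ℚ] ℚ := c.comp (σ : ℂ →+* ℂ).toAddMonoidHom.toRatLinearMap
    have h3 : (J.map fun t : ℝ => σ (t : ℂ)).map c = JC.map c' := rfl
    rw [h3]
    refine Submodule.subset_span ⟨JC.map c', Or.inl (J_comp hJ hJψ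
      (c'.comp (algebraMap ℝ ℂ).toAddMonoidHom.toRatLinearMap)), ?_⟩
    ext i j
    rfl
  have hone : (1 : Matrix ι ι ℂ) ∈ SM ℂ {X | X ∈ hQ n ψ J ∨ X = 1} :=
    Submodule.subset_span ⟨1, Or.inr rfl, (one_mapQ ℂ).symm⟩
  have hσσ : ∀ σ : ℂ ≃+* ℂ, (J.map fun t : ℝ => σ (t : ℂ)) * (J.map fun t : ℝ => σ (t : ℂ)) =
      -1 := by
    intro σ
    have h3 : (J.map fun t : ℝ => σ (t : ℂ)) = J.map ((σ : ℂ →+* ℂ).comp (algebraMap ℝ ℂ)) := rfl
    rw [h3, ← Matrix.map_mul, hJ, map_neg_one]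
  let W₂ : Set (Matrix ι ι ℂ) := {p | p * p = p ∧ p ∈ SM ℂ {X | X ∈ hQ n ψ J ∨ X = 1}}
  have hle : MTGen J ≤ Submonoid.closure {x : Matrix ι ι ℂ |
      ∃ (p : Matrix ι ι ℂ) (c : ℂ), p ∈ W₂ ∧ x = 1 - p + c • p} := by
    unfold MTGen
    rw [Submonoid.closure_le]
    rintro _ ⟨σ, a, b, -, rfl⟩
    rw [ab_eq, ab_prod (hσσ σ)]
    refine Submonoid.mul_mem _ (Submonoid.subset_closure ⟨_, _, ⟨pa_pa (hσσ σ), ?_⟩, rfl⟩)
      (Submonoid.subset_closure ⟨_, _, ⟨pb_pb (hσσ σ), ?_⟩, rfl⟩)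
    · exact Submodule.sub_mem _ (Submodule.smul_mem _ _ hone) (Submodule.smul_mem _ _ (hJS σ))
    · exact Submodule.add_mem _ (Submodule.smul_mem _ _ hone) (Submodule.smul_mem _ _ (hJS σ))
  intro x hx
  rw [aeval_eq_ev]
  exact transfer N W₂ (fun p hp => hp.1) (fun p hp => hNZ p hp.2) hN1 (hle hx) _
    (Submodule.subset_span ⟨f, mem_I0_iff.2 hf, c, rfl⟩)

/-- One direction of the criterion. -/
theorem mtIn_of_endTate (hcard : Fintype.card ι = 2 * n) (hψ : IsUnit ψ) (hJ : J * J = -1)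
    (hJψ : J.transpose * mapQ ℝ ψ * J = mapQ ℝ ψ)
    (hIV : ∀ z : Matrix ι ι ℚ, mapQ ℝ z * J = J * mapQ ℝ z →
      (∀ e : Matrix ι ι ℚ, mapQ ℝ e * J = J * mapQ ℝ e → z * e = e * z) →
      z.transpose * ψ = ψ * z)
    (hK : Known Ω ρ χ (mapQ k ψ) (mapQ k '' {e | mapQ ℝ e * J = J * mapQ ℝ e}))
    (hET : EndTate n ρ J) : MTIn Ω ρ J := by
  obtain ⟨h1, h2⟩ := hO_le (Ω := Ω) hcard hψ hIV hK hET
  intro f hf
  refine (Submodule.span_le.2 ?_) (pol_expand ℚ f)
  rintro _ ⟨c, rfl⟩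
  exact Submodule.subset_span ⟨_, comp_mem hJ hJψ h1 h2 hf c, rfl⟩

theorem cm_smul' (c : Ω →ₗ[ℚ] ℚ) (a : Ω) (f : MvPolynomial (ι × ι) Ω) :
    cm c (a • f) = cm (c.comp (LinearMap.mulLeft ℚ a)) f := by
  ext m
  rw [coeff_cm, coeff_cm, coeff_smul]
  rfl

theorem InMT_zero (J : Matrix ι ι ℝ) : InMTIdeal J (0 : MvPolynomial (ι × ι) ℚ) :=
  fun _ _ => map_zero _

theorem InMT_add {J : Matrix ι ι ℝ} {r s : MvPolynomial (ι × ι) ℚ} (hr : InMTIdeal J r)
    (hs : InMTIdeal J s) : InMTIdeal J (r + s) := fun x hx => by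
  rw [map_add, hr x hx, hs x hx, add_zero]

theorem InMT_smul {J : Matrix ι ι ℝ} {r : MvPolynomial (ι × ι) ℚ} (q : ℚ)
    (hr : InMTIdeal J r) : InMTIdeal J (q • r) := fun x hx => by
  rw [map_smul, hr x hx, smul_zero]

/-- The other direction of the criterion. -/
theorem endTate_of_mtIn (h : MTIn Ω ρ J) : EndTate n ρ J := by
  rintro T ⟨hTa, Δ, hΔ, hT⟩
  set TO : Matrix (Fin n → ι) (Fin n → ι) Ω := T.map (algebraMap k Ω) with hTO
  have h1 : ∀ i j, Vanishes ρ (PT TO i j) := by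
    intro i j
    refine ⟨Δ, hΔ, fun s hs => ?_⟩
    show ev _ (PT TO i j) = 0
    rw [ev_PT]
    have h2 : TO * tpow n ((ρ s).map (algebraMap k Ω)) =
        tpow n ((ρ s).map (algebraMap k Ω)) * TO := by
      rw [← tpow_map (algebraMap k Ω), hTO, ← Matrix.map_mul, ← Matrix.map_mul, hT s hs]
    rw [h2, sub_self, Matrix.zero_apply]
  have h2 : ∀ (c : Ω →ₗ[ℚ] ℚ) i j, InMTIdeal J (cm c (PT TO i j)) := by
    intro c i j
    have h3 := h _ (h1 i j)
    generalize PT TO i j = g at h3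
    induction h3 using Submodule.span_induction generalizing c with
    | mem g hg =>
      obtain ⟨r, hr, rfl⟩ := hg
      have h4 : cm c (MvPolynomial.map (algebraMap ℚ Ω) r) = c 1 • r := by
        have h5 := cm_mul c 1 r
        rwa [C_1, one_mul] at h5
      rw [h4]
      exact InMT_smul _ hr
    | zero =>
      rw [cm_zero]
      exact InMT_zero J
    | add x y _ _ hx hy =>
      rw [cm_add]
      exact InMT_add (hx c) (hy c)
    | smul a x _ hx =>
      rw [cm_smul']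
      exact hx _
  have h3 : ∀ (c : Ω →ₗ[ℚ] ℚ) i j, cm c (PT TO i j) = PT (TO.map c) i j := by
    intro c i j
    have hsum : ∀ {α : Type} (s : Finset α) (f : α → MvPolynomial (ι × ι) Ω),
        cm c (∑ a ∈ s, f a) = ∑ a ∈ s, cm c (f a) := by
      intro α s f
      classical
      induction s using Finset.induction_on with
      | empty => rw [Finset.sum_empty, Finset.sum_empty, cm_zero]
      | insert a s ha ih => rw [Finset.sum_insert ha, Finset.sum_insert ha, cm_add, ih]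
    have hmon : ∀ i j : Fin n → ι, tpow n (XX (K := Ω) (ι := ι)) i j =
        MvPolynomial.map (algebraMap ℚ Ω) (tpow n (XX (K := ℚ) (ι := ι)) i j) := by
      intro i j
      rw [tpow_apply, tpow_apply, map_prod]
      refine Finset.prod_congr rfl fun l _ => ?_
      show X (i l, j l) = MvPolynomial.map (algebraMap ℚ Ω) (X (i l, j l))
      rw [map_X]
    have hneg : ∀ f : MvPolynomial (ι × ι) Ω, cm c (-f) = - cm c f := by
      intro f
      ext m
      rw [coeff_cm, coeff_neg, coeff_neg, coeff_cm, map_neg]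
    unfold PT
    rw [Matrix.sub_apply, Matrix.sub_apply, sub_eq_add_neg, cm_add, hneg, ← sub_eq_add_neg,
      Matrix.mul_apply, Matrix.mul_apply, Matrix.mul_apply, Matrix.mul_apply, hsum, hsum]
    congr 1
    · refine Finset.sum_congr rfl fun l _ => ?_
      rw [hmon, Matrix.map_apply, cm_mul, Matrix.map_apply, Matrix.map_apply,
        MvPolynomial.smul_eq_C_mul]
    · refine Finset.sum_congr rfl fun l _ => ?_
      rw [hmon, Matrix.map_apply, mul_comm, cm_mul, Matrix.map_apply, Matrix.map_apply,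
        MvPolynomial.smul_eq_C_mul, mul_comm]
  have h4 : ∀ c : Ω →ₗ[ℚ] ℚ, HodgeEnd n J (TO.map c) := by
    intro c
    refine ⟨AltM_map c.toAddMonoidHom (AltM_map (algebraMap k Ω).toAddMonoidHom hTa), ?_⟩
    intro a b hab
    rw [← sub_eq_zero]
    ext i j
    have hab' : (a : ℂ) ^ 2 + (b : ℂ) ^ 2 ≠ 0 := by
      intro h0
      have h00 : a ^ 2 + b ^ 2 = 0 := by exact_mod_cast h0
      have ha : a = 0 := by nlinarith [sq_nonneg a, sq_nonneg b]
      have hb : b = 0 := by nlinarith [sq_nonneg a, sq_nonneg b]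
      rcases hab with h | h
      · exact h ha
      · exact h hb
    have h5 := h2 c i j _ (Submonoid.subset_closure ⟨RingEquiv.refl ℂ, (a : ℂ), (b : ℂ), hab',
      rfl⟩)
    have h8 : (a : ℂ) • (1 : Matrix ι ι ℂ) + (b : ℂ) • (J.map fun t : ℝ => RingEquiv.refl ℂ (t : ℂ)) =
        (a • (1 : Matrix ι ι ℝ) + b • J).map (algebraMap ℝ ℂ) := by
      ext i j
      simp only [Matrix.map_apply, Matrix.add_apply, Matrix.smul_apply, Matrix.one_apply,
        smul_eq_mul, map_add, map_mul, RingEquiv.refl_apply]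
      congr 2
      split_ifs
      · rw [map_one]
      · rw [map_zero]
    have h9 : MvPolynomial.map (algebraMap ℚ ℂ) (PT (TO.map c) i j) =
        MvPolynomial.map (algebraMap ℝ ℂ) (MvPolynomial.map (algebraMap ℚ ℝ)
          (PT (TO.map c) i j)) := by
      rw [MvPolynomial.map_map]
      congr 1
    rw [h3, h8, aeval_eq_ev, h9, ev_map] at h5
    have h5' : ev (a • (1 : Matrix ι ι ℝ) + b • J) (MvPolynomial.map (algebraMap ℚ ℝ)
        (PT (TO.map c) i j)) = 0 := (algebraMap ℝ ℂ).injective (by rw [h5, map_zero])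
    have h7 : MvPolynomial.map (algebraMap ℚ ℝ) (PT (TO.map c) i j) =
        PT ((TO.map c).map (algebraMap ℚ ℝ)) i j := by
      unfold PT
      rw [Matrix.sub_apply, Matrix.sub_apply, map_sub, Matrix.mul_apply, Matrix.mul_apply,
        Matrix.mul_apply, Matrix.mul_apply, map_sum, map_sum]
      have hmon : ∀ i j : Fin n → ι, MvPolynomial.map (algebraMap ℚ ℝ)
          (tpow n (XX (K := ℚ) (ι := ι)) i j) = tpow n (XX (K := ℝ) (ι := ι)) i j := by
        intro i j
        rw [tpow_apply, tpow_apply, map_prod]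
        refine Finset.prod_congr rfl fun l _ => ?_
        show MvPolynomial.map (algebraMap ℚ ℝ) (X (i l, j l)) = X (i l, j l)
        rw [map_X]
      congr 1
      · refine Finset.sum_congr rfl fun l _ => ?_
        rw [map_mul, hmon, Matrix.map_apply, map_C]
        rfl
      · refine Finset.sum_congr rfl fun l _ => ?_
        rw [map_mul, hmon, Matrix.map_apply, map_C]
        rfl
    rw [h7, ev_PT] at h5'
    exact h5'
  -- extension of functionals
  have hinj : LinearMap.ker ((algebraMap k Ω).toAddMonoidHom.toRatLinearMap) = ⊥ := by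
    rw [LinearMap.ker_eq_bot]
    exact (algebraMap k Ω).injective
  obtain ⟨g, hg⟩ := LinearMap.exists_leftInverse_of_injective
    ((algebraMap k Ω).toAddMonoidHom.toRatLinearMap) hinj
  have h5 : T ∈ SM k {T₀ | HodgeEnd n J T₀} := by
    refine SM_of_comp (k := ℚ) fun c => ?_
    have h6 : T.map c = TO.map (c.comp g) := by
      ext i j
      rw [Matrix.map_apply, Matrix.map_apply, LinearMap.comp_apply]
      have h7 := congrArg (fun f : k →ₗ[ℚ] k => f (T i j)) hg
      congr 1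
      exact h7.symm
    rw [h6]
    refine Submodule.subset_span ⟨_, h4 (c.comp g), ?_⟩
    ext i j
    rfl
  exact h5

end main

end

end Pool.Agent.L5helper27.MM
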